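import Pool.Agent.H79.UM.IIIC

/-!
# III: the kernel computation
-/

namespace Pool.Agent.H79.III

theorem all_eq : all = true := by decide +kernel

end Pool.Agent.H79.III
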