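import Pool.Agent.H79.UM.IIID
import Pool.Agent.H79.UM.IIIK

/-!
# III: `60 ≤ n < 1300`, `k ≤ 47`
-/

set_option autoImplicit false
set_option linter.unusedSectionVars false
set_option exponentiation.threshold 40000

namespace Pool.Agent.H79.III

open Pool.Agent.H37.UM PowerSeries Finset

theorem geo_eq (a t : ℕ) : geo a t = (2 ^ (a * t) - 1) / (2 ^ a - 1) := rfl

theorem mask2_bits : ∀ k, k < 48 → 2 ≤ k → Nat.testBit mask2 (768 * k + 767) = true := by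
  decide +kernel

theorem digit_ge {v k : ℕ} (h : Nat.testBit v (768 * k + 767) = true) :
    2 ^ 767 ≤ v / 2 ^ (768 * k) % 2 ^ 768 := by
  apply Nat.ge_two_pow_of_testBit
  rw [Nat.testBit_mod_two_pow, Nat.testBit_div_two_pow, Nat.add_comm 767, h]
  simp

theorem c1a (n D : ℕ) (h1 : Nat.ble (Nat.mul (Nat.pow (Nat.add n 3) 4) (Nat.pow 2 767))
    (Nat.add (Nat.pow 10 23) (Nat.mul (Nat.pow (Nat.add n 3) 4) D)) = true) :
    (n + 3) ^ 4 * 2 ^ 767 ≤ 10 ^ 23 + (n + 3) ^ 4 * D := Nat.le_of_ble_eq_true h1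

theorem c1b (n D : ℕ) (d : ℤ) (hD : (D : ℤ) = d + 2 ^ 767)
    (h2 : (n + 3) ^ 4 * 2 ^ 767 ≤ 10 ^ 23 + (n + 3) ^ 4 * D) :
    -(10 ^ 23) ≤ ((n : ℤ) + 3) ^ 4 * d := by
  have h3 : (((n + 3) ^ 4 * 2 ^ 767 : ℕ) : ℤ) ≤
      ((10 ^ 23 + (n + 3) ^ 4 * D : ℕ) : ℤ) := by exact_mod_cast h2
  rw [Nat.cast_add, Nat.cast_mul, Nat.cast_mul, hD] at h3
  push_cast at h3
  linarith

variable {B K : ℕ} (hB : B = 768) (hK : K = 48) (hP : PACKStmt)

include hB hK hP

theorem offs_eq : ((offs : ℕ) : ZMod (2 ^ (B * K))) =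
    pk B K (PowerSeries.mk (fun _ => (2 ^ 767 : ℤ))) := by
  have h1 : offs = 2 ^ 767 * ∑ k ∈ range K, (2 ^ B) ^ k := by
    rw [Nat.geomSum_eq (Nat.le_self_pow (by omega) 2), ← pow_mul, ← geo_eq]
    unfold offs
    rw [hB, hK]
    rfl
  rw [h1]
  unfold pk
  push_cast
  rw [Finset.mul_sum]
  refine Finset.sum_congr rfl (fun k _ => ?_)
  rw [coeff_mk]
  push_cast
  rfl

/-- reading the digits -/
theorem read {x : ℕ} {f : ℤ⟦X⟧} (hx : (x : ZMod (2 ^ (B * K))) = pk B K f)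
    (hf : ∀ k, k < K → |coeff k f| < 2 ^ 767) (k : ℕ) (hk : k < K) :
    ((red (Nat.add x offs) / 2 ^ (768 * k) % 2 ^ 768 : ℕ) : ℤ) = coeff k f + 2 ^ 767 := by
  have hr := rep_add' hB hK hP hx (offs_eq hB hK hP)
  obtain ⟨v, hv⟩ : ∃ v, v = red (Nat.add x offs) := ⟨_, rfl⟩
  rw [← hv] at hr ⊢
  have hval : (pk B K (f + PowerSeries.mk (fun _ => (2 ^ 767 : ℤ)))).val = v := by
    rw [← hr.2]
    exact ZMod.val_natCast_of_lt hr.1
  have hc : ∀ j, coeff j (f + PowerSeries.mk (fun _ => (2 ^ 767 : ℤ))) = coeff j f + 2 ^ 767 := by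
    intro j
    rw [map_add, coeff_mk]
  have h6 := hP.2.2.2.2.2 B K (f + PowerSeries.mk (fun _ => (2 ^ 767 : ℤ))) k
    (fun j hj => by
      have h7 := abs_lt.1 (hf j hj)
      rw [hc, hB]
      have h8 : (2 : ℤ) ^ 768 = 2 ^ 767 + 2 ^ 767 := by norm_num
      rw [h8]
      constructor <;> linarith [h7.1, h7.2]) hk
  rw [hval, hc, hB] at h6
  exact h6.symm

/-- the conclusion for `n` -/
def Cn (n : ℕ) : Prop :=
  (∀ k, 2 ≤ k → k ≤ 47 → 0 ≤ df (XX n) k) ∧ coeff 0 (XX n) ≤ coeff 2 (XX n) ∧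
    (139 ≤ n → 0 ≤ df (XX n) 1) ∧ (n < 139 → -(10 ^ 23) ≤ ((n : ℤ) + 3) ^ 4 * df (XX n) 1)

theorem chk_spec (hA : APBStmt) (hN : PNStmt) (hF : FFStmt) (hU : UUStmt) {n d hh t : ℕ}
    (h60 : 60 ≤ n) (hn : n < 1300) (hd : Rep B K d (den n)) (hhh : Rep B K hh (h n))
    (ht : Rep B K t (T n)) (hc : chk n d hh t = true) : Cn n := by
  unfold chk at hc
  rw [Nat.ble_eq_true_of_le h60, cond_true, force_eq, force_eq, force_eq] at hc
  obtain ⟨p, hp⟩ : ∃ p, p = red (Nat.mul d hh) := ⟨_, rfl⟩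
  rw [← hp] at hc
  have hpr : Rep B K p (P n) := by
    rw [hp]
    exact rep_mul hB hK hP hd hhh
  obtain ⟨z, hz⟩ : ∃ z, z = red (Nat.add (Nat.mul (Nat.mul 2 n) p)
      (Nat.sub (Nat.mul (Nat.add n 2) (Nat.pow 2 36864)) (Nat.mul (Nat.add n 2) t))) := ⟨_, rfl⟩
  rw [← hz] at hc
  have hzr : Rep B K z (XX n) := by
    rw [hz]
    refine rep_red hB hK ?_
    change (((2 * n * p + ((n + 2) * 2 ^ 36864 - (n + 2) * t) : ℕ)) : ZMod (2 ^ (B * K))) = _
    rw [hBK hB hK]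
    have h5 : (n + 2) * t ≤ (n + 2) * 2 ^ (B * K) := Nat.mul_le_mul_left _ ht.1.le
    rw [Nat.cast_add, Nat.cast_sub h5]
    have h6 : (((2 ^ (B * K) : ℕ)) : ZMod (2 ^ (B * K))) = 0 := ZMod.natCast_self _
    rw [Nat.cast_mul (n + 2) (2 ^ (B * K)), h6]
    unfold XX
    have h7 : (2 * n : ℤ⟦X⟧) = ((2 * n : ℕ) : ℤ⟦X⟧) := by push_cast; rfl
    have h8 : (n + 2 : ℤ⟦X⟧) = ((n + 2 : ℕ) : ℤ⟦X⟧) := by push_cast; rfl
    rw [h7, h8, pk_sub hP, pk_mul hP ((2 * n : ℕ) : ℤ⟦X⟧),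
      pk_mul hP ((n + 2 : ℕ) : ℤ⟦X⟧), ← hpr.2, ← ht.2, pk_nat hP (by omega), pk_nat hP (by omega)]
    push_cast
    ring
  obtain ⟨v, hv⟩ : ∃ v, v = red (Nat.add (subs z 1) offs) := ⟨_, rfl⟩
  obtain ⟨u, hu⟩ : ∃ u, u = red (Nat.add (subs z 2) offs) := ⟨_, rfl⟩
  rw [← hv, ← hu, Bool.and_eq_true, Bool.and_eq_true] at hc
  obtain ⟨⟨hc1, hc2⟩, hc3⟩ := hc
  have hrv : ∀ k, k < 48 → ((v / 2 ^ (768 * k) % 2 ^ 768 : ℕ) : ℤ) = df (XX n) k + 2 ^ 767 := by
    intro k hk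
    have h1 := read hB hK hP (rep_subs hB hK hP 1 hzr).2
      (fun k hk => f_bd hA hN hF hU 1 (by omega) hn (by omega)) k (by omega)
    rw [← hv, pow_one] at h1
    exact h1
  have hru : ((u / 2 ^ (768 * 2) % 2 ^ 768 : ℕ) : ℤ) =
      coeff 2 (XX n) - coeff 0 (XX n) + 2 ^ 767 := by
    have h1 := read hB hK hP (rep_subs hB hK hP 2 hzr).2
      (fun k hk => f_bd hA hN hF hU 2 (by omega) hn (by omega)) 2 (by omega)
    rw [← hu, coeff_one_sub, if_pos le_rfl, Nat.sub_self] at h1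
    exact h1
  have hshift : ∀ x k, redE 768 (Nat.shiftRight x (768 * k)) = x / 2 ^ (768 * k) % 2 ^ 768 := by
    intro x k
    rw [redE_eq]
    have h1 : Nat.shiftRight x (768 * k) = x / 2 ^ (768 * k) := Nat.shiftRight_eq_div_pow x _
    rw [h1]
  refine ⟨fun k hk2 hk => ?_, ?_, fun h => ?_, fun h => ?_⟩
  · have h1 : v &&& mask2 = mask2 := Nat.eq_of_beq_eq_true hc1
    have h2 := mask2_bits k (by omega) hk2
    rw [← h1, Nat.testBit_and, Bool.and_eq_true] at h2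
    have h3 := digit_ge h2.1
    have h4 := hrv k (by omega)
    have h5 : ((2 ^ 767 : ℕ) : ℤ) ≤ ((v / 2 ^ (768 * k) % 2 ^ 768 : ℕ) : ℤ) := by exact_mod_cast h3
    rw [h4] at h5
    push_cast at h5
    linarith
  · have h1 := Nat.le_of_ble_eq_true hc2
    rw [show (1536 : ℕ) = 768 * 2 from rfl, hshift u 2] at h1
    have h5 : ((2 ^ 767 : ℕ) : ℤ) ≤ ((u / 2 ^ (768 * 2) % 2 ^ 768 : ℕ) : ℤ) := by exact_mod_cast h1
    rw [hru] at h5
    push_cast at h5
    linarith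
  · rw [Nat.ble_eq_true_of_le h, cond_true] at hc3
    have h1 : Nat.ble (Nat.pow 2 767) (redE 768 (Nat.shiftRight v (768 * 1))) = true := hc3
    rw [hshift v 1] at h1
    have h2 : 2 ^ 767 ≤ v / 2 ^ (768 * 1) % 2 ^ 768 := Nat.le_of_ble_eq_true h1
    have h5 : ((2 ^ 767 : ℕ) : ℤ) ≤ ((v / 2 ^ (768 * 1) % 2 ^ 768 : ℕ) : ℤ) := by exact_mod_cast h2
    rw [hrv 1 (by norm_num)] at h5
    push_cast at h5
    linarith
  · have h0 : Nat.ble 139 n = false := by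
      rw [← Bool.not_eq_true, Nat.ble_eq]
      omega
    rw [h0, cond_false] at hc3
    have hs1 : redE 768 (Nat.shiftRight v 768) = v / 2 ^ (768 * 1) % 2 ^ 768 := hshift v 1
    rw [hs1] at hc3
    exact c1b n _ _ (hrv 1 (by norm_num)) (c1a n _ hc3)

theorem loop_spec (hA : APBStmt) (hN : PNStmt) (hF : FFStmt) (hU : UUStmt) (hO : OPStmt)
    (hR : RECStmt) (hg : Rep B K (gi 1) (g 1)) :
    ∀ (f n d : ℕ) (hs : List ℕ) (t : ℕ), 1 ≤ n → n + f = 1300 → hs.length = f →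
      Rep B K d (den (n - 1)) → Rep B K t (T (n - 1)) →
      (∀ j, j < f → Rep B K (nth hs j) (h (n + j))) → loop f n d hs t = true →
      ∀ m, n ≤ m → 60 ≤ m → m < 1300 → Cn m
  | 0, n, d, hs, t, h1, h2, _, _, _, _, _, m, hm1, hm0, hm2 => by omega
  | f + 1, n, d, [], t, h1, h2, h3, _, _, _, _, m, hm1, hm0, hm2 => by simp at h3
  | f + 1, n, d, x :: hs, t, h1, h2, h3, hd, ht, hh, hl, m, hm1, hm0, hm2 => by
    unfold loop at hl
    rw [force_eq, force_eq, force_eq, Bool.and_eq_true] at hl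
    have hn : n < 2 ^ 11 := by norm_num; omega
    have hd' : Rep B K (dstep 11 n d) (den n) := by
      rw [den_rec hR h1]
      exact dstep_spec hB hK hP hO 11 n d _ h1 hn hd
    have ht' : Rep B K (red (Nat.mul (gi 1) (dstep 11 n t))) (T n) := by
      have h4 := rep_mul hB hK hP hg (dstep_spec hB hK hP hO 11 n t _ h1 hn ht)
      have h5 : g 1 * (F n * w 1 * T (n - 1)) = T n := by
        rw [T_rec h1]
        calc g 1 * (F n * w 1 * T (n - 1)) = (w 1 * g 1) * (F n * T (n - 1)) := by ring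
          _ = F n * T (n - 1) := by rw [w_mul_g le_rfl, one_mul]
      rw [h5] at h4
      exact h4
    rcases Nat.eq_or_lt_of_le hm1 with h4 | h4
    · rw [← h4]
      exact chk_spec hB hK hP hA hN hF hU (by omega) (by omega) hd' (hh 0 (by omega)) ht' hl.1
    · refine loop_spec hA hN hF hU hO hR hg f (n + 1) (dstep 11 n d) hs
        (red (Nat.mul (gi 1) (dstep 11 n t))) (by omega) (by omega)
        (by simpa using h3) (by rw [Nat.add_sub_cancel]; exact hd')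
        (by rw [Nat.add_sub_cancel]; exact ht')
        (fun j hj => ?_) hl.2 m h4 hm0 hm2
      have h5 := hh (j + 1) (by omega)
      rw [show n + (j + 1) = n + 1 + j by omega] at h5
      exact h5

end Pool.Agent.H79.III

namespace Pool.Agent.H37.UM

open Pool.Agent.H79.III

theorem III_thm (hP : PACKStmt) (hA : APBStmt) (hG : GENStmt) (hR : RECStmt) (hN : PNStmt)
    (hU : UUStmt) (hO : OPStmt) (hF : FFStmt) : IIIStmt := by
  obtain ⟨B, hB⟩ : ∃ B : ℕ, B = 768 := ⟨_, rfl⟩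
  obtain ⟨K, hK⟩ : ∃ K : ℕ, K = 48 := ⟨_, rfl⟩
  have hall := all_eq
  unfold all at hall
  rw [Bool.and_eq_true] at hall
  obtain ⟨s, hs⟩ : ∃ s, s = start := ⟨_, rfl⟩
  rw [← hs] at hall
  have hg := chkG_spec hB hK hP 47 hall.1
  have hst := start_spec hB hK hP hG hN
  rw [← hs] at hst
  have hr := rows_spec hB hK hP hG 1299 1300 47 s (by norm_num) hg hst.1 hst.2
  have key := loop_spec hB hK hP hA hN hF hU hO hR (hg 1 le_rfl (by norm_num)) 1299 1 1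
    (List.tail (rows 47 s)) 1 le_rfl rfl
    (by rw [List.length_tail, hr.1])
    (by
      have h1 : den (1 - 1) = 1 := by
        unfold den
        rfl
      rw [h1]
      exact rep_one hP (by omega) (by omega))
    (by
      have h1 : T (1 - 1) = 1 := by
        unfold T U
        rfl
      rw [h1]
      exact rep_one hP (by omega) (by omega))
    (fun j hj => by
      rw [nth_tail]
      have h1 := hr.2 (j + 1) (by omega)
      rw [hG.2.2.2.2.1 (j + 1) 1299 (by omega)] at h1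
      rw [Nat.add_comm 1 j]
      exact h1)
    hall.2
  exact ⟨fun n k h1 h2 h3 h4 _ => (key n (by omega) h1 h2).1 k h3 h4,
    fun n h1 h2 => (key n (by omega) h1 h2).2.1,
    fun n h1 h2 => (key n (by omega) (by omega) h2).2.2.1 h1,
    fun n h1 h2 => (key n (by omega) h1 (by omega)).2.2.2 h2⟩

end Pool.Agent.H37.UM
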