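/-!
# III: kernel computation (functions)

Packed power series: `768` bits for each coefficient, `48` coefficients.
Scalars (numbers of partitions with parts `≥ 48`): `140` bits, `1300` coefficients.
-/

set_option autoImplicit false

namespace Pool.Agent.H79.III

/-- force evaluation -/
def force {α : Type} (n : Nat) (k : Nat → α) : α := Nat.rec (k 0) (fun m _ => k (Nat.succ m)) n

/-- reduction modulo `2 ^ e` -/
def redE (e x : Nat) : Nat := Nat.land x (Nat.sub (Nat.pow 2 e) 1)
/-- `(1 + 2 ^ s) x` -/
def addsE (e x s : Nat) : Nat := redE e (Nat.add x (Nat.shiftLeft x s))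
/-- `(1 - 2 ^ s) x` -/
def subsE (e x s : Nat) : Nat :=
  redE e (Nat.add x (Nat.sub (Nat.pow 2 e) (redE e (Nat.shiftLeft x s))))
/-- reduction -/
def red (x : Nat) : Nat := redE 36864 x
/-- `(1 + y ^ i) x` -/
def adds (x i : Nat) : Nat := addsE 36864 x (Nat.mul 768 i)
/-- `(1 - y ^ i) x` -/
def subs (x i : Nat) : Nat := subsE 36864 x (Nat.mul 768 i)
/-- multiplication by `w i` -/
def wm (i x : Nat) : Nat :=
  bif Nat.beq (Nat.mod i 2) 0 then adds x i else subs x i
/-- quotient of `2 ^ (a t) - 1` by `2 ^ a - 1` -/
def geo (a t : Nat) : Nat :=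
  Nat.div (Nat.sub (Nat.pow 2 (Nat.mul a t)) 1) (Nat.sub (Nat.pow 2 a) 1)
/-- inverse of `w i` -/
def gi (i : Nat) : Nat :=
  bif Nat.beq (Nat.mod i 2) 0 then
    subs (red (geo (Nat.mul 1536 i) (Nat.add (Nat.div 48 (Nat.mul 2 i)) 1))) i
  else red (geo (Nat.mul 768 i) (Nat.add (Nat.div 48 i) 1))

/-- element of a list -/
def nth : List Nat → Nat → Nat
  | [], _ => 0
  | x :: _, 0 => x
  | _ :: l, n + 1 => nth l n

/-- one row: `os` = values for parts `≥ i + 1`, result = values for parts `≥ i`; `p` = the next
delayed values, `q` = the reversed recent values -/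
def row (G : Nat) : List Nat → List Nat → List Nat → List Nat
  | [], _, _ => []
  | o :: os, x :: p, q => force (red (Nat.add o (Nat.mul G x)))
      (fun v => v :: row G os p (v :: q))
  | o :: os, [], q => match List.reverse q with
    | [] => []
    | x :: p => force (red (Nat.add o (Nat.mul G x))) (fun v => v :: row G os p [v])

/-- a list of zeros -/
def zeros : Nat → List Nat
  | 0 => []
  | n + 1 => 0 :: zeros n

/-- all rows `i = f, ..., 1` -/
def rows : Nat → List Nat → List Nat
  | 0, l => l
  | f + 1, l => rows f (row (gi (Nat.succ f)) l (zeros (Nat.succ f)) [])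

/-- the inverses are correct -/
def chkG : Nat → Bool
  | 0 => true
  | n + 1 => Nat.beq (wm (Nat.succ n) (gi (Nat.succ n))) 1 && chkG n

/-- scalars: multiplication by `1 / (1 - z ^ s)` -/
def cm : Nat → Nat → Nat → Nat
  | 0, _, x => x
  | f + 1, s, x => bif Nat.ble 1300 s then x else
      force (addsE 182000 x (Nat.mul 140 s)) (fun y => cm f (Nat.mul 2 s) y)

/-- scalars: multiplication by `1 / (1 - z ^ i)` for `f` values of `i` -/
def cms : Nat → Nat → Nat → Nat
  | 0, _, x => x
  | f + 1, i, x => force (cm 5 i x) (fun y => force (Nat.succ i) (fun j => cms f j y))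

/-- the digits -/
def ex : Nat → Nat → List Nat
  | 0, _ => []
  | f + 1, x => force (redE 140 x) (fun d => d :: force (Nat.shiftRight x 140) (fun y => ex f y))

/-- the scalars -/
def start : List Nat := ex 1300 (cms 1252 48 1)

/-- multiplication by the product of `w j`, `j = m, m / 2, ...` down to the odd part -/
def dstep : Nat → Nat → Nat → Nat
  | 0, _, x => x
  | f + 1, m, x => bif Nat.beq (Nat.mod m 2) 0 then dstep f (Nat.div m 2) (adds x m)
      else subs x m

/-- the offset -/
def offs : Nat := Nat.mul (Nat.pow 2 767) (geo 768 48)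
/-- the mask -/
def mask2 : Nat := Nat.shiftLeft (Nat.mul (Nat.pow 2 767) (geo 768 46)) 1536

/-- the check for `n`: `d = den n`, `h = h n`, `t = T n` -/
def chk (n d h t : Nat) : Bool :=
  bif Nat.ble 60 n then
    force (red (Nat.mul d h)) (fun p =>
      force (red (Nat.add (Nat.mul (Nat.mul 2 n) p)
          (Nat.sub (Nat.mul (Nat.add n 2) (Nat.pow 2 36864)) (Nat.mul (Nat.add n 2) t)))) (fun z =>
        force (red (Nat.add (subs z 1) offs)) (fun v =>
          Nat.beq (Nat.land v mask2) mask2 &&
          Nat.ble (Nat.pow 2 767)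
            (redE 768 (Nat.shiftRight (red (Nat.add (subs z 2) offs)) 1536)) &&
          (bif Nat.ble 139 n then Nat.ble (Nat.pow 2 767) (redE 768 (Nat.shiftRight v 768))
          else Nat.ble (Nat.mul (Nat.pow (Nat.add n 3) 4) (Nat.pow 2 767))
            (Nat.add (Nat.pow 10 23) (Nat.mul (Nat.pow (Nat.add n 3) 4)
              (redE 768 (Nat.shiftRight v 768))))))))
  else true

/-- the loop over `n` -/
def loop : Nat → Nat → Nat → List Nat → Nat → Bool
  | 0, _, _, _, _ => true
  | _ + 1, _, _, [], _ => false
  | f + 1, n, d, h :: hs, t =>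
      force (dstep 11 n d) (fun d' => force (red (Nat.mul (gi 1) (dstep 11 n t))) (fun t' =>
        force (Nat.succ n) (fun n' => chk n d' h t' && loop f n' d' hs t')))

/-- the whole check -/
def all : Bool := chkG 47 && loop 1299 1 1 (List.tail (rows 47 start)) 1

end Pool.Agent.H79.III
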