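import Pool.Agent.H79.UM.IIIA

/-!
# III: soundness of the rows and of the scalars
-/

set_option autoImplicit false
set_option linter.unusedSectionVars false
set_option exponentiation.threshold 40000

namespace Pool.Agent.H79.III

open Pool.Agent.H37.UM PowerSeries Finset

theorem nth_ge : ∀ (l : List ℕ) (n : ℕ), l.length ≤ n → nth l n = 0
  | [], _, _ => rfl
  | x :: l, 0, h => by simp at h
  | x :: l, n + 1, h => nth_ge l n (by simpa using h)

theorem nth_append : ∀ (l m : List ℕ) (n : ℕ),
    nth (l ++ m) n = if n < l.length then nth l n else nth m (n - l.length)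
  | [], m, n => by simp
  | x :: l, m, 0 => by simp [nth]
  | x :: l, m, n + 1 => by
    rw [List.cons_append, List.length_cons]
    change nth (l ++ m) n = _
    rw [nth_append l m n]
    by_cases h : n < l.length
    · rw [if_pos h, if_pos (by omega)]
      rfl
    · rw [if_neg h, if_neg (by omega)]
      congr 1
      omega

theorem nth_zeros : ∀ (k n : ℕ), nth (zeros k) n = 0
  | 0, _ => rfl
  | _ + 1, 0 => rfl
  | k + 1, n + 1 => nth_zeros k n

theorem length_zeros : ∀ (k : ℕ), (zeros k).length = k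
  | 0 => rfl
  | k + 1 => by
    unfold zeros
    rw [List.length_cons, length_zeros k]

theorem nth_tail : ∀ (l : List ℕ) (n : ℕ), nth (List.tail l) n = nth l (n + 1)
  | [], _ => rfl
  | _ :: _, _ => rfl

/-- abstract version of `row` -/
def rowA (G : ℕ) : List ℕ → List ℕ → List ℕ
  | [], _ => []
  | _ :: _, [] => []
  | o :: os, x :: D => red (o + G * x) :: rowA G os (D ++ [red (o + G * x)])

theorem row_eq (G : ℕ) : ∀ (os p q : List ℕ), row G os p q = rowA G os (p ++ q.reverse)
  | [], _, _ => by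
    unfold row rowA
    rfl
  | o :: os, x :: p, q => by
    unfold row
    rw [force_eq, row_eq G os p, List.reverse_cons, ← List.append_assoc, List.cons_append]
    rfl
  | o :: os, [], q => by
    unfold row
    rw [List.nil_append]
    cases h : q.reverse with
    | nil => rfl
    | cons x p =>
      change force (red (Nat.add o (Nat.mul G x))) (fun v => v :: row G os p [v]) = _
      rw [force_eq, row_eq G os p, List.reverse_singleton]
      rfl

variable {B K : ℕ} (hB : B = 768) (hK : K = 48) (hP : PACKStmt) (hG : GENStmt)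

include hB hK hP

theorem rowA_spec (i b G : ℕ) (hi : 1 ≤ i) (hib : i ≤ b) (hg : Rep B K G (g i)) (hG : GENStmt) :
    ∀ (os D : List ℕ) (j : ℕ),
      (∀ t, t < os.length → Rep B K (nth os t) (hr (i + 1) b (j + t))) →
      D.length = i →
      (∀ t, t < i → Rep B K (nth D t) (if i ≤ j + t then hr i b (j + t - i) else 0)) →
      (rowA G os D).length = os.length ∧
        ∀ t, t < os.length → Rep B K (nth (rowA G os D) t) (hr i b (j + t))
  | [], D, j, _, _, _ => by
    unfold rowA
    exact ⟨rfl, fun t ht => absurd ht (by simp)⟩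
  | o :: os, [], j, _, hD, _ => by
    simp at hD
    omega
  | o :: os, x :: D, j, ho, hDl, hD => by
    unfold rowA
    obtain ⟨v, hv⟩ : ∃ v, v = red (o + G * x) := ⟨_, rfl⟩
    rw [← hv]
    have hrec := hG.2.2.2.1 i b j hi hib
    have hvr : Rep B K v (hr i b j) := by
      rw [hv, hrec]
      have ho0 := ho 0 (by simp)
      rw [Nat.add_zero] at ho0
      refine rep_add' hB hK hP ho0.2 ?_
      have h1 := (hD 0 (by omega)).2
      rw [Nat.add_zero] at h1
      change ((x : ℕ) : ZMod (2 ^ (B * K))) = _ at h1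
      rw [Nat.cast_mul, h1, hg.2, ← pk_mul hP]
      congr 1
      split_ifs
      · rfl
      · rw [mul_zero]
    have hDl' : D.length + 1 = i := by simpa using hDl
    have ih := rowA_spec i b G hi hib hg hG os (D ++ [v]) (j + 1)
      (fun t ht => by
        have h := ho (t + 1) (by simpa using ht)
        rw [show j + 1 + t = j + (t + 1) by omega]
        exact h)
      (by rw [List.length_append]; simpa using hDl')
      (fun t ht => by
        rw [nth_append]
        by_cases h : t < D.length
        · rw [if_pos h]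
          have h1 := hD (t + 1) (by omega)
          rw [show j + 1 + t = j + (t + 1) by omega]
          exact h1
        · rw [if_neg h, show t - D.length = 0 by omega, if_pos (by omega),
            show j + 1 + t - i = j by omega]
          exact hvr)
    refine ⟨by rw [List.length_cons, List.length_cons, ih.1], fun t ht => ?_⟩
    cases t with
    | zero => exact hvr
    | succ t =>
      have h := ih.2 t (by simpa using ht)
      rw [show j + 1 + t = j + (t + 1) by omega] at h
      exact h

theorem rows_spec (hG : GENStmt) (b n : ℕ) :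
    ∀ (f : ℕ) (l : List ℕ), f ≤ b → (∀ i, 1 ≤ i → i ≤ f → Rep B K (gi i) (g i)) → l.length = n →
      (∀ t, t < n → Rep B K (nth l t) (hr (f + 1) b t)) →
      (rows f l).length = n ∧ ∀ t, t < n → Rep B K (nth (rows f l) t) (hr 1 b t)
  | 0, l, _, _, h1, h2 => ⟨h1, h2⟩
  | f + 1, l, hf, hg, h1, h2 => by
    unfold rows
    rw [row_eq]
    have h3 := rowA_spec hB hK hP (f + 1) b (gi (f + 1)) (by omega) hf
      (hg (f + 1) (by omega) le_rfl) hG l (zeros (f + 1) ++ List.reverse []) 0
      (fun t ht => by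
        rw [Nat.zero_add]
        exact h2 t (by omega))
      (by simp [length_zeros])
      (fun t ht => by
        rw [nth_append, length_zeros, if_pos ht, nth_zeros, if_neg (by omega)]
        exact rep_zero hP (by omega))
    exact rows_spec hG b n f _ (by omega) (fun i h4 h5 => hg i h4 (by omega))
      (by rw [h3.1, h1])
      (fun t ht => by
        have h5 := h3.2 t (by omega)
        rw [Nat.zero_add] at h5
        exact h5)

/-! ### parts `≥ 48` -/

theorem pk_X_ge {i : ℕ} (hi : 48 ≤ i) : pk B K (X ^ i) = 0 := by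
  unfold pk
  refine Finset.sum_eq_zero fun k hk => ?_
  rw [mem_range] at hk
  rw [coeff_X_pow, if_neg (by omega)]
  simp

theorem pk_g_ge {i : ℕ} (hi : 48 ≤ i) : pk B K (g i) = 1 := by
  have h1 : pk B K (w i) = 1 := by
    by_cases h : i % 2 = 0
    · rw [w_even h, pk_add hP, pk_one hP (by omega), pk_X_ge hB hK hP hi, add_zero]
    · rw [w_odd h, pk_sub hP, pk_one hP (by omega), pk_X_ge hB hK hP hi, sub_zero]
  have h2 : pk B K (w i) * pk B K (g i) = 1 := by
    rw [← pk_mul hP, w_mul_g (by omega), pk_one hP (by omega)]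
  rwa [h1, one_mul] at h2

omit hB hK hP in
theorem coeff_zero_g {i : ℕ} (hi : 1 ≤ i) : coeff 0 (g i) = 1 := by
  have h1 := congrArg (coeff 0) (w_mul_g hi)
  have h2 : coeff 0 (w i) = 1 := by
    unfold w
    have h : (0 : ℤ) ^ i = 0 := zero_pow (by omega)
    simp [h]
  rw [coeff_zero_eq_constantCoeff, map_mul] at h1
  rw [coeff_zero_eq_constantCoeff] at h2 ⊢
  rw [h2, one_mul, map_one] at h1
  exact h1

omit hB hK hP in
theorem coeff_zero_mul' (f f' : ℤ⟦X⟧) : coeff 0 (f * f') = coeff 0 f * coeff 0 f' := by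
  simp only [coeff_zero_eq_constantCoeff, map_mul]

/-- modulo `y ^ 48` the series with parts `≥ 48` are scalars -/
theorem pk_hr (hG : GENStmt) : ∀ (c n : ℕ),
    pk B K (hr 48 (47 + c) n) = ((coeff 0 (hr 48 (47 + c) n) : ℤ) : ZMod (2 ^ (B * K))) := by
  intro c
  induction c with
  | zero =>
    intro n
    cases n with
    | zero =>
      rw [hG.1, pk_one hP (by omega)]
      simp
    | succ n =>
      rw [hG.2.1 48 (47 + 0) (n + 1) (by norm_num) (by omega), pk_zero hP]
      simp
  | succ c ih =>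
    intro n
    induction n using Nat.strong_induction_on with
    | _ n ihn =>
      rw [show 47 + (c + 1) = 47 + c + 1 by omega] at *
      rw [hG.2.2.1 48 (47 + c) n (by norm_num) (by omega), pk_add hP, ih n, map_add, Int.cast_add]
      congr 1
      split_ifs with h
      · rw [pk_mul hP, pk_g_ge hB hK hP (by omega), one_mul, ihn _ (by omega),
          coeff_zero_mul', coeff_zero_g (by omega), one_mul]
      · rw [pk_zero hP]
        simp

/-- the generating function of the scalars -/
noncomputable def Cs (b : ℕ) : ℤ⟦X⟧ := PowerSeries.mk fun n => coeff 0 (hr 48 b n)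

omit hB hK hP in
theorem coeff_one_sub (s k : ℕ) (f : ℤ⟦X⟧) :
    coeff k ((1 - X ^ s) * f) = coeff k f - if s ≤ k then coeff (k - s) f else 0 := by
  rw [sub_mul, one_mul, map_sub, coeff_X_pow_mul']

omit hB hK hP in
theorem Cs_rec (hG : GENStmt) (b : ℕ) (hb : 47 ≤ b) : (1 - X ^ (b + 1)) * Cs (b + 1) = Cs b := by
  ext n
  rw [coeff_one_sub]
  unfold Cs
  rw [coeff_mk, coeff_mk, hG.2.2.1 48 b n (by norm_num) (by omega), map_add]
  split_ifs with h
  · rw [coeff_mk, coeff_zero_mul', coeff_zero_g (by omega), one_mul]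
    ring
  · simp

omit hB hK hP in
theorem Cs_47 (hG : GENStmt) : Cs 47 = 1 := by
  ext n
  unfold Cs
  rw [coeff_mk]
  cases n with
  | zero =>
    rw [hG.1]
  | succ n =>
    rw [hG.2.1 48 47 (n + 1) (by norm_num) (by omega), coeff_one, if_neg (by omega), map_zero]

omit hB hK hP in
theorem coeff_zero_prod_g (s : Multiset ℕ) (h : ∀ i ∈ s, 1 ≤ i) : coeff 0 (s.map g).prod = 1 := by
  induction s using Multiset.induction_on with
  | empty => simp
  | cons a s ih =>
    rw [Multiset.map_cons, Multiset.prod_cons, coeff_zero_mul',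
      coeff_zero_g (h a (Multiset.mem_cons_self a s)),
      ih (fun i hi => h i (Multiset.mem_cons_of_mem hi)), one_mul]

omit hB hK hP in
theorem coeff_zero_hr (a b n : ℕ) :
    0 ≤ coeff 0 (hr a b n) ∧ coeff 0 (hr a b n) ≤ (Fintype.card n.Partition : ℤ) := by
  unfold hr
  rw [map_sum]
  have h1 : ∑ p ∈ (univ : Finset n.Partition).filter (fun p => ∀ j ∈ p.parts, a ≤ j ∧ j ≤ b),
      coeff 0 (p.parts.map g).prod =
      ∑ p ∈ (univ : Finset n.Partition).filter (fun p => ∀ j ∈ p.parts, a ≤ j ∧ j ≤ b), (1 : ℤ) :=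
    Finset.sum_congr rfl fun p _ => coeff_zero_prod_g _ fun i hi => p.parts_pos hi
  rw [h1, Finset.sum_const, nsmul_eq_mul, mul_one]
  refine ⟨Int.natCast_nonneg _, ?_⟩
  exact_mod_cast Finset.card_le_univ _

omit hB hK hP in
theorem card_bd (hN : PNStmt) {n : ℕ} (hn : n < 1300) : Fintype.card n.Partition < 2 ^ 140 := by
  have h1 := hN n
  have h2 : √(n : ℝ) ≤ 36.06 := by
    rw [Real.sqrt_le_left (by norm_num)]
    have : (n : ℝ) ≤ 1300 := by exact_mod_cast hn.le
    refine this.trans (by norm_num)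
  have h3 : (2.5651 * √(n : ℝ)) < 140 * Real.log 2 := by
    have := Real.log_two_gt_d9
    linarith
  have h4 : Real.exp (140 * Real.log 2) = 2 ^ 140 := by
    rw [mul_comm, Real.exp_mul, Real.exp_log (by norm_num)]
    norm_cast
  have h5 : (Fintype.card n.Partition : ℝ) < 2 ^ 140 := by
    rw [← h4]
    exact h1.trans_lt (Real.exp_lt_exp.mpr h3)
  exact_mod_cast h5

section scal

omit hB hK

variable {B' K' : ℕ} (hB' : B' = 140) (hK' : K' = 1300)

include hB' hK'

theorem cm_spec : ∀ (f s x : ℕ) (φ ψ : ℤ⟦X⟧), 1 ≤ s → 1300 ≤ s * 2 ^ f → Rep B' K' x φ →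
    (1 - X ^ s) * ψ = φ → Rep B' K' (cm f s x) ψ
  | 0, s, x, φ, ψ, h1, h2, hx, hψ => by
    unfold cm
    refine ⟨hx.1, ?_⟩
    rw [hx.2, ← hψ, pk_mul hP, pk_sub hP, pk_one hP (by omega)]
    have h3 : pk B' K' (X ^ s) = 0 := by
      unfold pk
      refine Finset.sum_eq_zero fun k hk => ?_
      rw [mem_range] at hk
      rw [coeff_X_pow, if_neg (by omega)]
      simp
    rw [h3, sub_zero, one_mul]
  | f + 1, s, x, φ, ψ, h1, h2, hx, hψ => by
    unfold cm
    by_cases h : 1300 ≤ s
    · rw [Nat.ble_eq_true_of_le h]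
      refine ⟨hx.1, ?_⟩
      change ((x : ℕ) : ZMod (2 ^ (B' * K'))) = _
      rw [hx.2, ← hψ, pk_mul hP, pk_sub hP, pk_one hP (by omega)]
      have h3 : pk B' K' (X ^ s) = 0 := by
        unfold pk
        refine Finset.sum_eq_zero fun k hk => ?_
        rw [mem_range] at hk
        rw [coeff_X_pow, if_neg (by omega)]
        simp
      rw [h3, sub_zero, one_mul]
    · have h3 : Nat.ble 1300 s = false := by
        rw [← Bool.not_eq_true, Nat.ble_eq]
        exact h
      rw [h3]
      change Rep B' K' (force (addsE 182000 x (Nat.mul 140 s)) (fun y => cm f (Nat.mul 2 s) y)) ψ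
      rw [force_eq]
      have h4 : Rep B' K' (addsE 182000 x (Nat.mul 140 s)) ((1 + X ^ s) * φ) :=
        rep_addsE hP (by omega) (by rw [hB', hK']) s (by rw [hB']; rfl) hx
      refine cm_spec f (2 * s) _ _ ψ (by omega) ?_ h4 ?_
      · rw [pow_succ] at h2
        calc 1300 ≤ s * (2 ^ f * 2) := h2
          _ = 2 * s * 2 ^ f := by ring
      · rw [← hψ, show 2 * s = s + s by omega, pow_add]
        ring

theorem cms_spec (hG : GENStmt) : ∀ (f i x : ℕ), 48 ≤ i → Rep B' K' x (Cs (i - 1)) →
    Rep B' K' (cms f i x) (Cs (i - 1 + f))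
  | 0, i, x, _, hx => hx
  | f + 1, i, x, hi, hx => by
    unfold cms
    rw [force_eq, force_eq]
    have h1 : Rep B' K' (cm 5 i x) (Cs i) := by
      refine cm_spec hP hB' hK' 5 i x (Cs (i - 1)) (Cs i) (by omega) (by omega) hx ?_
      have := Cs_rec hG (i - 1) (by omega)
      rw [show i - 1 + 1 = i by omega] at this
      exact this
    have h2 := cms_spec hG f (i + 1) (cm 5 i x) (by omega) h1
    rw [show i - 1 + (f + 1) = i + 1 - 1 + f by omega]
    exact h2

end scal

omit hB hK hP in
theorem ex_spec : ∀ (f x : ℕ), (ex f x).length = f ∧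
    ∀ t, t < f → nth (ex f x) t = x / 2 ^ (140 * t) % 2 ^ 140
  | 0, x => ⟨rfl, fun t ht => absurd ht (by omega)⟩
  | f + 1, x => by
    unfold ex
    rw [force_eq, force_eq]
    have ih := ex_spec f (Nat.shiftRight x 140)
    refine ⟨by rw [List.length_cons, ih.1], fun t ht => ?_⟩
    cases t with
    | zero =>
      change redE 140 x = _
      rw [redE_eq, Nat.mul_zero, pow_zero, Nat.div_one]
    | succ t =>
      change nth (ex f (Nat.shiftRight x 140)) t = _
      rw [ih.2 t (by omega)]
      have h1 : Nat.shiftRight x 140 = x / 2 ^ 140 := Nat.shiftRight_eq_div_pow x 140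
      rw [h1, Nat.div_div_eq_div_mul, ← pow_add, show 140 + 140 * t = 140 * (t + 1) by ring]

theorem start_spec (hG : GENStmt) (hN : PNStmt) :
    start.length = 1300 ∧ ∀ t, t < 1300 → Rep B K (nth start t) (hr 48 1299 t) := by
  unfold start
  obtain ⟨N, hNN⟩ : ∃ N, N = cms 1252 48 1 := ⟨_, rfl⟩
  obtain ⟨L, hL⟩ : ∃ L, L = 1300 := ⟨_, rfl⟩
  obtain ⟨B', hB'⟩ : ∃ B' : ℕ, B' = 140 := ⟨_, rfl⟩
  obtain ⟨K', hK'⟩ : ∃ K' : ℕ, K' = 1300 := ⟨_, rfl⟩
  have h1 : Rep B' K' N (Cs 1299) := by
    rw [hNN]
    have := cms_spec hP hB' hK' hG 1252 48 1 le_rfl (by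
      rw [show 48 - 1 = 47 from rfl, Cs_47 hG]
      exact rep_one hP (by omega) (by omega))
    exact this
  rw [← hNN, ← hL]
  have h2 := ex_spec L N
  refine ⟨h2.1, fun t ht => ?_⟩
  rw [h2.2 t ht]
  have hval : (pk B' K' (Cs 1299)).val = N := by
    rw [← h1.2]
    exact ZMod.val_natCast_of_lt h1.1
  have h3 := hP.2.2.2.2.2 B' K' (Cs 1299) t
    (fun j hj => by
      unfold Cs
      rw [coeff_mk]
      have h4 := coeff_zero_hr 48 1299 j
      refine ⟨h4.1, h4.2.trans_lt ?_⟩
      have h5 := card_bd hN (n := j) (by omega)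
      rw [hB']
      exact_mod_cast h5) (by omega)
  rw [hval, hB'] at h3
  have h6 : coeff t (Cs 1299) = coeff 0 (hr 48 1299 t) := by
    unfold Cs
    rw [coeff_mk]
  rw [h6] at h3
  refine ⟨?_, ?_⟩
  · have h7 : N / 2 ^ (140 * t) % 2 ^ 140 < 2 ^ 140 := Nat.mod_lt _ (by norm_num)
    refine h7.trans_le (Nat.pow_le_pow_right (by norm_num) ?_)
    rw [hB, hK]
    norm_num
  · have h8 := pk_hr hB hK hP hG 1252 t
    rw [show 47 + 1252 = 1299 from rfl, h3, Int.cast_natCast] at h8
    exact h8.symm

end Pool.Agent.H79.III
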