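import Pool.Agent.H79.UM.IIIB

/-!
# III: recursions and bounds of the coefficients
-/

set_option autoImplicit false
set_option linter.unusedSectionVars false
set_option exponentiation.threshold 40000

namespace Pool.Agent.H79.III

open Pool.Agent.H37.UM PowerSeries Finset

theorem F_two (hO : OPStmt) {m : ℕ} (hm : 1 ≤ m) : F (2 * m) = F m * (1 + X ^ (2 * m)) := by
  have h1 : padicValNat 2 (2 * m) = padicValNat 2 m + 1 := by
    rw [padicValNat.mul (by norm_num) (by omega), padicValNat.self (by norm_num)]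
    omega
  unfold F
  rw [h1, hO.2.1 m hm, Finset.prod_range_succ]
  have h2 : 2 ^ (padicValNat 2 m + 1) * op m = 2 * m := by
    have h3 := (hO.1 m hm).2.2.2
    rw [pow_succ, mul_comm (2 ^ _) 2, mul_assoc, ← h3]
  rw [h2]
  ring

theorem F_odd (hO : OPStmt) {m : ℕ} (hm : m % 2 ≠ 0) : F m * w 1 = 1 - X ^ m := by
  have h1 : padicValNat 2 m = 0 := padicValNat.eq_zero_of_not_dvd (by omega)
  have h2 : op m = m := by
    have h3 := hO.2.2 (m / 2)
    rw [show 2 * (m / 2) + 1 = m by omega] at h3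
    exact h3
  unfold F
  rw [h1, h2, Finset.prod_range_zero, mul_one, w_odd (by norm_num), pow_one]
  unfold iv
  exact geom_sum_mul_neg X m

theorem Ioc_pred {n : ℕ} (hn : 1 ≤ n) : Finset.Ioc (n - 1) n = {n} := by
  ext a
  simp only [Finset.mem_Ioc, Finset.mem_singleton]
  omega

theorem U_pred {n : ℕ} (hn : 1 ≤ n) : U (n - 1) n = F n := by
  unfold U
  rw [Ioc_pred hn, Finset.prod_singleton]

theorem den_rec (hR : RECStmt) {n : ℕ} (hn : 1 ≤ n) : den n = F n * w 1 * den (n - 1) := by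
  have h := hR.2.2 (n - 1) n (by omega)
  rw [U_pred hn, show n - (n - 1) = 1 by omega, pow_one] at h
  have h1 : w 1 * g 1 = 1 := w_mul_g le_rfl
  calc den n = den n * (w 1 * g 1) := by rw [h1, mul_one]
    _ = (den n * g 1) * w 1 := by ring
    _ = F n * den (n - 1) * w 1 := by rw [h]
    _ = _ := by ring

theorem T_rec {n : ℕ} (hn : 1 ≤ n) : T n = F n * T (n - 1) := by
  obtain ⟨m, rfl⟩ : ∃ m, n = m + 1 := ⟨n - 1, by omega⟩
  unfold T U
  rw [Nat.add_sub_cancel, ← Finset.insert_Ioc_right_eq_Ioc_add_one (by omega),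
    Finset.prod_insert (by simp)]

section

variable {B K : ℕ} (hB : B = 768) (hK : K = 48) (hP : PACKStmt)

include hB hK hP

theorem dstep_spec (hO : OPStmt) : ∀ (f m x : ℕ) (φ : ℤ⟦X⟧), 1 ≤ m → m < 2 ^ f → Rep B K x φ →
    Rep B K (dstep f m x) (F m * w 1 * φ)
  | 0, m, x, φ, h1, h2, _ => by omega
  | f + 1, m, x, φ, h1, h2, hx => by
    unfold dstep
    by_cases h : m % 2 = 0
    · have h3 : Nat.beq (Nat.mod m 2) 0 = true := by rw [Nat.beq_eq]; exact h
      rw [h3]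
      have h4 := dstep_spec hO f (m / 2) (adds x m) ((1 + X ^ m) * φ) (by omega)
        (by rw [pow_succ] at h2; omega) (rep_adds hB hK hP m hx)
      have h5 := F_two hO (m := m / 2) (by omega)
      rw [show 2 * (m / 2) = m by omega] at h5
      rw [h5]
      have h6 : F (m / 2) * (1 + X ^ m) * w 1 * φ = F (m / 2) * w 1 * ((1 + X ^ m) * φ) := by ring
      rw [h6]
      exact h4
    · have h3 : Nat.beq (Nat.mod m 2) 0 = false := by
        rw [← Bool.not_eq_true, Nat.beq_eq]; exact h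
      rw [h3, F_odd hO h]
      exact rep_subs hB hK hP m hx

end

/-- a bound for `cc n i`, `n ≤ 1299` -/
def cb (i : ℕ) : ℕ := if 41 ≤ i then 5 else if 21 ≤ i then 6 else if 11 ≤ i then 7 else
  if 6 ≤ i then 8 else if 3 ≤ i then 9 else if 2 ≤ i then 10 else 11

theorem cc_le {n i : ℕ} (hn : n < 1300) (hi : 1 ≤ i) : cc n i ≤ cb i := by
  unfold cc
  by_cases h : i = 0 ∨ n < i
  · rw [if_pos h]; exact Nat.zero_le _
  · rw [if_neg h]
    have h0 : n / i ≠ 0 := by
      have : i ≤ n := by omega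
      exact (Nat.div_pos this (by omega)).ne'
    have key : ∀ e c, c ≤ i → 1299 < c * 2 ^ e → Nat.log 2 (n / i) < e := by
      intro e c hc h1
      rw [Nat.log_lt_iff_lt_pow (by norm_num) h0]
      rw [Nat.div_lt_iff_lt_mul (by omega)]
      have h2 : c * 2 ^ e ≤ i * 2 ^ e := Nat.mul_le_mul_right _ hc
      rw [mul_comm]
      omega
    unfold cb
    split_ifs with h1 h2 h3 h4 h5 h6
    · have := key 5 41 h1 (by norm_num); omega
    · have := key 6 21 h2 (by norm_num); omega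
    · have := key 7 11 h3 (by norm_num); omega
    · have := key 8 6 h4 (by norm_num); omega
    · have := key 9 3 h5 (by norm_num); omega
    · have := key 10 2 h6 (by norm_num); omega
    · have := key 11 1 hi (by norm_num); omega

theorem sum_cc {n k : ℕ} (hn : n < 1300) (hk : k < 48) :
    ∑ i ∈ Icc 1 (min n k), cc n i ≤ 313 := by
  calc ∑ i ∈ Icc 1 (min n k), cc n i ≤ ∑ i ∈ Icc 1 (min n k), cb i :=
        Finset.sum_le_sum (fun i hi => cc_le hn (Finset.mem_Icc.1 hi).1)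
    _ ≤ ∑ i ∈ Icc 1 47, cb i := Finset.sum_le_sum_of_subset (by
        intro i hi
        rw [Finset.mem_Icc] at hi ⊢
        omega)
    _ = 313 := by decide

theorem choose_bd {n k : ℕ} (_h1 : 1 ≤ n) (hn : n < 1300) (hk : k < 48) :
    (n + k - 1).choose k ≤ 2 ^ 292 := by
  calc (n + k - 1).choose k ≤ (1298 + k).choose k := Nat.choose_le_choose k (by omega)
    _ = (1298 + k).choose 1298 := by rw [Nat.choose_symm_add]
    _ ≤ (1298 + 47).choose 1298 := Nat.choose_le_choose 1298 (by omega)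
    _ = (1298 + 47).choose 47 := by rw [Nat.choose_symm_add]
    _ = (1345).descFactorial 47 / Nat.factorial 47 :=
        Nat.choose_eq_descFactorial_div_factorial _ _
    _ ≤ 1345 ^ 47 / Nat.factorial 47 := Nat.div_le_div_right (Nat.descFactorial_le_pow _ _)
    _ ≤ 2 ^ 292 := by
        have h : (1345 : ℕ) ^ 47 ≤ 2 ^ 292 * Nat.factorial 47 := by decide +kernel
        exact Nat.div_le_of_le_mul (by rw [mul_comm]; exact h)

theorem P_bd (hA : APBStmt) (hN : PNStmt) {n k : ℕ} (h1 : 1 ≤ n) (hn : n < 1300) (hk : k < 48) :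
    |coeff k (P n)| ≤ 2 ^ 745 := by
  refine (hA n k h1).trans ?_
  have h : 2 ^ (∑ i ∈ Icc 1 (min n k), cc n i) * Fintype.card n.Partition * (n + k - 1).choose k ≤
      2 ^ 313 * 2 ^ 140 * 2 ^ 292 :=
    Nat.mul_le_mul (Nat.mul_le_mul (Nat.pow_le_pow_right (by norm_num) (sum_cc hn hk))
      (card_bd hN hn).le) (choose_bd h1 hn hk)
  have h2 : (2 : ℕ) ^ 313 * 2 ^ 140 * 2 ^ 292 = 2 ^ 745 := by
    rw [← pow_add, ← pow_add]
  rw [h2] at h
  exact_mod_cast h

theorem geo_sum_le (n : ℕ) : ∀ k : ℕ, ∑ i ∈ range (k + 1), n ^ (k - i) ≤ (n + 1) ^ k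
  | 0 => by simp
  | k + 1 => by
    rw [Finset.sum_range_succ', Nat.sub_zero]
    have h1 := geo_sum_le n k
    have h2 : ∑ i ∈ range (k + 1), n ^ (k + 1 - (i + 1)) = ∑ i ∈ range (k + 1), n ^ (k - i) :=
      Finset.sum_congr rfl fun i _ => by rw [Nat.add_sub_add_right]
    rw [h2]
    have h3 : n ^ k ≤ (n + 1) ^ k := Nat.pow_le_pow_left (by omega) k
    calc _ ≤ (n + 1) ^ k + n ^ (k + 1) := Nat.add_le_add_right h1 _
      _ = (n + 1) ^ k + n ^ k * n := by rw [pow_succ]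
      _ ≤ (n + 1) ^ k + (n + 1) ^ k * n := Nat.add_le_add_left (Nat.mul_le_mul_right _ h3) _
      _ = (n + 1) ^ (k + 1) := by ring

theorem T_le (hF : FFStmt) (hU : UUStmt) : ∀ (n k : ℕ), coeff k (T n) ≤ (((n + 1) ^ k : ℕ) : ℤ)
  | 0, k => by
    unfold T U
    rw [Finset.Ioc_self, Finset.prod_empty, coeff_one]
    split_ifs <;> simp
  | n + 1, k => by
    have ih := T_le hF hU n
    rw [T_rec (by omega), coeff_mul, Finset.Nat.sum_antidiagonal_eq_sum_range_succ_mk]
    rw [Nat.add_sub_cancel]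
    have h1 : ∀ i ∈ Finset.range (k + 1), coeff i (F (n + 1)) * coeff (k - i) (T n) ≤
        (((n + 1) ^ (k - i) : ℕ) : ℤ) := by
      intro i _
      rw [hF.1 (n + 1) (by omega) i]
      have h3 := ih (k - i)
      split_ifs with h4
      · rw [one_mul]; exact h3
      · rw [zero_mul]; exact Int.natCast_nonneg _
    refine (Finset.sum_le_sum h1).trans ?_
    have h2 := geo_sum_le (n + 1) k
    exact_mod_cast h2

theorem T_bd (hF : FFStmt) (hU : UUStmt) {n k : ℕ} (hn : n < 1300) (hk : k < 48) :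
    0 ≤ coeff k (T n) ∧ coeff k (T n) ≤ 2 ^ 745 := by
  refine ⟨hU.2.1 0 n k, (T_le hF hU n k).trans ?_⟩
  have h1 : (n + 1) ^ k ≤ 1300 ^ 47 :=
    (Nat.pow_le_pow_left (by omega) k).trans (Nat.pow_le_pow_right (by norm_num) (by omega))
  have h2 : (1300 : ℕ) ^ 47 ≤ 2 ^ 745 := by decide +kernel
  exact_mod_cast h1.trans h2

theorem abs_sub_le' {a b A : ℤ} (ha : |a| ≤ A) (hb : |b| ≤ A) : |a - b| ≤ 2 * A := by
  rw [abs_le] at *
  constructor <;> linarith [ha.1, ha.2, hb.1, hb.2]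

theorem coeff_XX (n k : ℕ) : coeff k (XX n) = 2 * n * coeff k (P n) - (n + 2) * coeff k (T n) := by
  unfold XX
  have h1 : (2 * n : ℤ⟦X⟧) = C (2 * n : ℤ) := by simp
  have h2 : (n + 2 : ℤ⟦X⟧) = C (n + 2 : ℤ) := by simp
  rw [h1, h2, map_sub, coeff_C_mul, coeff_C_mul]

theorem XX_bd (hA : APBStmt) (hN : PNStmt) (hF : FFStmt) (hU : UUStmt) {n k : ℕ} (h1 : 1 ≤ n)
    (hn : n < 1300) (hk : k < 48) : |coeff k (XX n)| ≤ 2 ^ 758 := by
  rw [coeff_XX]
  have h2 := P_bd hA hN h1 hn hk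
  have h3 := T_bd hF hU hn hk
  have h4 : (n : ℤ) ≤ 1300 := by exact_mod_cast hn.le
  have h5 : (1 : ℤ) ≤ n := by exact_mod_cast h1
  rw [abs_le] at h2 ⊢
  obtain ⟨E, hE⟩ : ∃ E : ℤ, E = 2 ^ 745 := ⟨_, rfl⟩
  have hE0 : 0 ≤ E := by rw [hE]; positivity
  rw [← hE] at h2 h3
  have h6 : (2 : ℤ) ^ 758 = 8192 * E := by rw [hE]; norm_num
  rw [h6]
  constructor
  · nlinarith [h2.1, h2.2, h3.1, h3.2, mul_le_mul_of_nonneg_left h4 hE0,
      mul_nonneg (show (0 : ℤ) ≤ n by linarith) (show (0 : ℤ) ≤ coeff k (P n) + E by linarith [h2.1]),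
      mul_nonneg (show (0 : ℤ) ≤ n by linarith) (show (0 : ℤ) ≤ E - coeff k (T n) by linarith [h3.2])]
  · nlinarith [h2.1, h2.2, h3.1, h3.2, mul_le_mul_of_nonneg_left h4 hE0,
      mul_nonneg (show (0 : ℤ) ≤ n by linarith) (show (0 : ℤ) ≤ E - coeff k (P n) by linarith [h2.2]),
      mul_nonneg (show (0 : ℤ) ≤ n by linarith) h3.1]

theorem f_bd (hA : APBStmt) (hN : PNStmt) (hF : FFStmt) (hU : UUStmt) (s : ℕ) {n k : ℕ}
    (h1 : 1 ≤ n) (hn : n < 1300) (hk : k < 48) : |coeff k ((1 - X ^ s) * XX n)| < 2 ^ 767 := by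
  rw [coeff_one_sub]
  have h2 : |if s ≤ k then coeff (k - s) (XX n) else 0| ≤ 2 ^ 758 := by
    split_ifs
    · exact XX_bd hA hN hF hU h1 hn (by omega)
    · rw [abs_zero]; positivity
  refine (abs_sub_le' (XX_bd hA hN hF hU h1 hn hk) h2).trans_lt ?_
  norm_num

end Pool.Agent.H79.III
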