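import Pool.Agent.H37.UM.Stmts

/-!
# Project UM, module MAJ: calculus of majorants
-/

set_option autoImplicit false

namespace Pool.Agent.H37.UM

open PowerSeries Finset

/-- reordering of a triangular sum -/
theorem tri_sum {R : Type*} [CommSemiring R] (a b : ℕ → R) (K : ℕ) :
    ∑ k ∈ range K, ∑ p ∈ antidiagonal k, a p.1 * b p.2 =
      ∑ i ∈ range K, ∑ j ∈ range (K - i), a i * b j := by
  have h1 : ∀ k, ∑ p ∈ antidiagonal k, a p.1 * b p.2 = ∑ i ∈ range (k + 1), a i * b (k - i) :=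
    fun k => Finset.Nat.sum_antidiagonal_eq_sum_range_succ (fun i j => a i * b j) k
  simp only [h1]
  rw [Finset.sum_comm' (t' := range K) (s' := fun i => Ico i K)]
  · refine Finset.sum_congr rfl fun i _ => ?_
    rw [Finset.sum_Ico_eq_sum_range]
    refine Finset.sum_congr rfl fun j _ => ?_
    simp
  · intro k i
    simp only [mem_range, mem_Ico]
    omega

namespace MAJ

/-- the partial sum -/
noncomputable def ps (r : ℝ) (f : ℤ⟦X⟧) (K : ℕ) : ℝ :=
  ∑ k ∈ range K, |((coeff k f : ℤ) : ℝ)| * r ^ k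

theorem ps_nonneg {r : ℝ} (hr : 0 < r) (f : ℤ⟦X⟧) (K : ℕ) : 0 ≤ ps r f K :=
  Finset.sum_nonneg fun k _ => by positivity

theorem ps_mono {r : ℝ} (hr : 0 < r) (f : ℤ⟦X⟧) {K L : ℕ} (h : K ≤ L) : ps r f K ≤ ps r f L := by
  refine Finset.sum_le_sum_of_subset_of_nonneg (by simpa using h) ?_
  intro k _ _
  positivity

theorem ps_mul {r : ℝ} (hr : 0 < r) (f g : ℤ⟦X⟧) (K : ℕ) :
    ps r (f * g) K ≤ ps r f K * ps r g K := by
  have h1 : ps r (f * g) K ≤ ∑ k ∈ range K, ∑ p ∈ antidiagonal k,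
      (|((coeff p.1 f : ℤ) : ℝ)| * r ^ p.1) * (|((coeff p.2 g : ℤ) : ℝ)| * r ^ p.2) := by
    refine Finset.sum_le_sum fun k _ => ?_
    rw [coeff_mul]
    push_cast
    calc |∑ p ∈ antidiagonal k, ((coeff p.1 f : ℤ) : ℝ) * ((coeff p.2 g : ℤ) : ℝ)| * r ^ k
        ≤ (∑ p ∈ antidiagonal k, |((coeff p.1 f : ℤ) : ℝ) * ((coeff p.2 g : ℤ) : ℝ)|) * r ^ k := by
          gcongr
          exact Finset.abs_sum_le_sum_abs _ _
      _ = _ := by
          rw [Finset.sum_mul]
          refine Finset.sum_congr rfl fun p hp => ?_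
          rw [HasAntidiagonal.mem_antidiagonal] at hp
          rw [abs_mul, ← hp, pow_add]
          ring
  refine h1.trans ?_
  rw [tri_sum (fun i => |((coeff i f : ℤ) : ℝ)| * r ^ i) (fun i => |((coeff i g : ℤ) : ℝ)| * r ^ i)]
  simp only [ps]
  rw [Finset.sum_mul]
  refine Finset.sum_le_sum fun i _ => ?_
  rw [← Finset.mul_sum]
  refine mul_le_mul_of_nonneg_left ?_ (by positivity)
  refine Finset.sum_le_sum_of_subset_of_nonneg ?_ ?_
  · intro j hj
    rw [mem_range] at hj ⊢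
    omega
  · intro k _ _
    positivity

theorem ps_add {r : ℝ} (hr : 0 < r) (f g : ℤ⟦X⟧) (K : ℕ) :
    ps r (f + g) K ≤ ps r f K + ps r g K := by
  simp only [ps]
  rw [← Finset.sum_add_distrib]
  refine Finset.sum_le_sum fun k _ => ?_
  rw [← add_mul, map_add]
  push_cast
  gcongr
  exact abs_add_le _ _

theorem ps_mon {r : ℝ} (hr : 0 < r) (i : ℕ) (ε : ℤ) (hε : |ε| = 1) (f : ℤ⟦X⟧)
    (hf : ∀ k, coeff k f = if k = i then ε else 0) (K : ℕ) : ps r f K ≤ r ^ i := by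
  simp only [ps, hf]
  calc ∑ k ∈ range K, |(((if k = i then ε else 0 : ℤ)) : ℝ)| * r ^ k
      ≤ ∑ k ∈ range (K + (i + 1)), |(((if k = i then ε else 0 : ℤ)) : ℝ)| * r ^ k := by
        refine Finset.sum_le_sum_of_subset_of_nonneg (by simp) ?_
        intro k _ _
        positivity
    _ = r ^ i := by
        rw [Finset.sum_eq_single i]
        · have : |(ε : ℝ)| = 1 := by
            rw [← Int.cast_abs, hε]; simp
          simp [this]
        · intro k _ hk
          simp [hk]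
        · intro h
          exfalso
          apply h
          rw [mem_range]
          omega

theorem maj_nonneg {r A : ℝ} {f : ℤ⟦X⟧} (h : Maj r f A) : 0 ≤ A := by
  have := h 0
  simpa using this

theorem maj_mul {r A B : ℝ} {f g : ℤ⟦X⟧} (hr : 0 < r) (hf : Maj r f A) (hg : Maj r g B) :
    Maj r (f * g) (A * B) := by
  intro K
  exact (ps_mul hr f g K).trans
    (mul_le_mul (hf K) (hg K) (ps_nonneg hr g K) (maj_nonneg hf))

theorem maj_add {r A B : ℝ} {f g : ℤ⟦X⟧} (hr : 0 < r) (hf : Maj r f A) (hg : Maj r g B) :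
    Maj r (f + g) (A + B) := by
  intro K
  exact (ps_add hr f g K).trans (add_le_add (hf K) (hg K))

theorem maj_X_pow {r : ℝ} (hr : 0 < r) (i : ℕ) : Maj r (X ^ i) (r ^ i) := by
  intro K
  exact ps_mon hr i 1 (by simp) _ (fun k => by rw [coeff_X_pow]) K

theorem maj_one {r : ℝ} (hr : 0 < r) : Maj r 1 1 := by
  have := maj_X_pow hr 0
  simpa using this

theorem maj_neg_X_pow {r : ℝ} (hr : 0 < r) (i : ℕ) : Maj r ((-X) ^ i) (r ^ i) := by
  intro K
  refine ps_mon hr i ((-1) ^ i) (by simp [abs_pow]) _ (fun k => ?_) K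
  have : ((-X : ℤ⟦X⟧)) ^ i = C ((-1) ^ i) * X ^ i := by
    rw [neg_pow]; simp
  rw [this, coeff_C_mul, coeff_X_pow]
  split_ifs <;> simp

theorem maj_w {r : ℝ} (hr : 0 < r) (i : ℕ) : Maj r (w i) (1 + r ^ i) :=
  maj_add hr (maj_one hr) (maj_neg_X_pow hr i)

theorem w_mul_g {i : ℕ} (hi : 1 ≤ i) : w i * g i = 1 := by
  rw [g]
  apply mul_invOfUnit
  simp only [w, map_add, map_pow, map_one, map_neg]
  simp [constantCoeff_X]
  omega

theorem maj_g {r : ℝ} (hr : 0 < r) (hr1 : r < 1) {i : ℕ} (hi : 1 ≤ i) :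
    Maj r (g i) (1 / (1 - r ^ i)) := by
  intro K
  have h1 : g i = 1 + (-1 : ℤ⟦X⟧) * ((-X) ^ i * g i) := by
    have := w_mul_g hi
    rw [w] at this
    linear_combination this
  have hpos : 0 < 1 - r ^ i := by
    have := pow_lt_one₀ hr.le hr1 (show i ≠ 0 by omega)
    linarith
  rw [le_div_iff₀ hpos]
  have h2 : ps r (g i) K ≤ 1 + 1 * (r ^ i * ps r (g i) K) := by
    conv_lhs => rw [h1]
    refine (ps_add hr _ _ K).trans (add_le_add (maj_one hr K) ?_)
    refine (ps_mul hr _ _ K).trans ?_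
    refine mul_le_mul ?_ ?_ (ps_nonneg hr _ K) zero_le_one
    · refine ps_mon hr 0 (-1) (by simp) _ (fun k => ?_) K |>.trans (by simp)
      rw [map_neg, coeff_one]
      split_ifs <;> simp
    · refine (ps_mul hr _ _ K).trans ?_
      exact mul_le_mul_of_nonneg_right (maj_neg_X_pow hr i K) (ps_nonneg hr _ K)
  have h3 : (∑ k ∈ range K, |((coeff k (g i) : ℤ) : ℝ)| * r ^ k) = ps r (g i) K := rfl
  rw [h3]
  linarith

theorem maj_sum {r : ℝ} (hr : 0 < r) (n : ℕ) : Maj r (iv n) (∑ i ∈ range n, r ^ i) := by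
  rw [iv]
  induction n with
  | zero =>
    intro K
    simp
  | succ n ih =>
    rw [sum_range_succ, sum_range_succ]
    exact maj_add hr ih (maj_X_pow hr n)

theorem maj_prod {r : ℝ} (hr : 0 < r) {ι : Type*} (s : Finset ι) (f : ι → ℤ⟦X⟧) (A : ι → ℝ)
    (h : ∀ i ∈ s, Maj r (f i) (A i)) : Maj r (∏ i ∈ s, f i) (∏ i ∈ s, A i) := by
  classical
  induction s using Finset.induction_on with
  | empty => simpa using maj_one hr
  | insert a s ha ih =>
    rw [prod_insert ha, prod_insert ha]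
    exact maj_mul hr (h a (mem_insert_self a s)) (ih fun i hi => h i (mem_insert_of_mem hi))

theorem maj_F {r : ℝ} (hr : 0 < r) (m : ℕ) : Maj r (F m) (Fe m r) := by
  rw [F, Fe]
  refine maj_mul hr (maj_sum hr _) (maj_prod hr _ _ _ fun a _ => ?_)
  exact maj_add hr (maj_one hr) (maj_X_pow hr _)

theorem maj_df {r A : ℝ} {f : ℤ⟦X⟧} (hr : 0 < r) (hf : Maj r f A) (k : ℕ) :
    |((df f k : ℤ) : ℝ)| ≤ (1 + r) * A * (r ^ k)⁻¹ := by
  have h1 : Maj r (1 - X : ℤ⟦X⟧) (1 + r) := by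
    have h2 := maj_w hr 1
    rw [w, pow_one, pow_one] at h2
    rwa [sub_eq_add_neg]
  have h2 := maj_mul hr h1 hf (k + 1)
  have h3 : |((df f k : ℤ) : ℝ)| * r ^ k ≤ (1 + r) * A := by
    refine le_trans ?_ h2
    rw [sum_range_succ]
    have : 0 ≤ ∑ k ∈ range k, |((coeff k ((1 - X) * f) : ℤ) : ℝ)| * r ^ k :=
      Finset.sum_nonneg fun k _ => by positivity
    rw [df]
    linarith
  have hk : 0 < r ^ k := by positivity
  rw [← div_eq_mul_inv, le_div_iff₀ hk]
  exact h3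

end MAJ

theorem MAJ_thm : MAJStmt :=
  ⟨fun _ _ _ _ _ hr hf hg => MAJ.maj_mul hr hf hg, fun _ _ _ _ _ hr hf hg => MAJ.maj_add hr hf hg,
    fun _ i hr => MAJ.maj_w hr i, fun _ _ hr hr1 hi => MAJ.maj_g hr hr1 hi,
    fun _ m hr => MAJ.maj_F hr m, fun _ _ _ k hr hf => MAJ.maj_df hr hf k⟩

end Pool.Agent.H37.UM
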