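import Pool.Agent.H37.UM.Stmts

/-!
# Project UM, module PACK: Kronecker substitution
-/

set_option autoImplicit false

namespace Pool.Agent.H37.UM

open PowerSeries Finset

namespace PACK

theorem two_pow_eq_zero (B K j : ℕ) (h : K ≤ j) : ((2 : ZMod (2 ^ (B * K))) ^ B) ^ j = 0 := by
  have h1 : ((2 ^ (B * K) : ℕ) : ZMod (2 ^ (B * K))) = 0 := ZMod.natCast_self _
  have h2 : ((2 : ZMod (2 ^ (B * K))) ^ B) ^ j = (2 ^ (B * K)) * 2 ^ (B * (j - K)) := by
    rw [← pow_mul, ← pow_add]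
    congr 1
    rw [← Nat.mul_add]
    congr 1
    omega
  rw [h2]
  push_cast at h1
  rw [h1, zero_mul]

theorem tri_sum' {R : Type*} [CommSemiring R] (a b : ℕ → R) (K : ℕ) :
    ∑ k ∈ range K, ∑ p ∈ HasAntidiagonal.antidiagonal k, a p.1 * b p.2 =
      ∑ i ∈ range K, ∑ j ∈ range (K - i), a i * b j := by
  have h1 : ∀ k, ∑ p ∈ HasAntidiagonal.antidiagonal k, a p.1 * b p.2 =
      ∑ i ∈ range (k + 1), a i * b (k - i) :=
    fun k => Finset.Nat.sum_antidiagonal_eq_sum_range_succ (fun i j => a i * b j) k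
  simp only [h1]
  rw [Finset.sum_comm' (t' := range K) (s' := fun i => Ico i K)]
  · refine Finset.sum_congr rfl fun i _ => ?_
    rw [Finset.sum_Ico_eq_sum_range]
    refine Finset.sum_congr rfl fun j _ => ?_
    simp
  · intro k i
    simp only [mem_range, mem_Ico]
    omega

theorem pk_mul (B K : ℕ) (f g : ℤ⟦X⟧) : pk B K (f * g) = pk B K f * pk B K g := by
  set z : ZMod (2 ^ (B * K)) := 2 ^ B with hz
  have hz0 : ∀ j, K ≤ j → z ^ j = 0 := fun j hj => two_pow_eq_zero B K j hj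
  have h1 : pk B K (f * g) = ∑ k ∈ range K, ∑ p ∈ HasAntidiagonal.antidiagonal k,
      (((coeff p.1 f : ℤ) : ZMod (2 ^ (B * K))) * z ^ p.1) *
        (((coeff p.2 g : ℤ) : ZMod (2 ^ (B * K))) * z ^ p.2) := by
    rw [pk]
    refine Finset.sum_congr rfl fun k _ => ?_
    rw [coeff_mul, Int.cast_sum, Finset.sum_mul]
    refine Finset.sum_congr rfl fun p hp => ?_
    rw [HasAntidiagonal.mem_antidiagonal] at hp
    rw [← hp, pow_add]
    push_cast
    ring
  rw [h1, tri_sum' (fun i => ((coeff i f : ℤ) : ZMod (2 ^ (B * K))) * z ^ i)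
    (fun i => ((coeff i g : ℤ) : ZMod (2 ^ (B * K))) * z ^ i), pk, pk, Finset.sum_mul]
  refine Finset.sum_congr rfl fun i _ => ?_
  rw [Finset.mul_sum]
  refine Finset.sum_subset ?_ ?_
  · intro j hj
    rw [mem_range] at hj ⊢
    omega
  · intro j _ hj
    have : K ≤ i + j := by
      rw [mem_range] at hj
      omega
    have h2 : z ^ i * z ^ j = 0 := by rw [← pow_add]; exact hz0 _ this
    linear_combination ((coeff i f : ℤ) : ZMod (2 ^ (B * K))) *
      ((coeff j g : ℤ) : ZMod (2 ^ (B * K))) * h2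

theorem pk_add (B K : ℕ) (f g : ℤ⟦X⟧) : pk B K (f + g) = pk B K f + pk B K g := by
  simp only [pk, map_add]
  rw [← Finset.sum_add_distrib]
  refine Finset.sum_congr rfl fun k _ => ?_
  push_cast
  ring

theorem pk_neg (B K : ℕ) (f : ℤ⟦X⟧) : pk B K (-f) = -pk B K f := by
  simp only [pk, map_neg]
  rw [← Finset.sum_neg_distrib]
  refine Finset.sum_congr rfl fun k _ => ?_
  push_cast
  ring

theorem pk_X_pow (B K i : ℕ) : pk B K (X ^ i) = (2 ^ B) ^ i := by
  by_cases hi : i < K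
  · rw [pk, Finset.sum_eq_single i]
    · rw [coeff_X_pow, if_pos rfl]
      simp
    · intro k _ hk
      rw [coeff_X_pow, if_neg hk]
      simp
    · intro h
      exact absurd (mem_range.mpr hi) h
  · rw [two_pow_eq_zero B K i (by omega), pk]
    refine Finset.sum_eq_zero fun k hk => ?_
    rw [mem_range] at hk
    rw [coeff_X_pow, if_neg (by omega)]
    simp

theorem pk_one (B K : ℕ) (_hK : 1 ≤ K) : pk B K 1 = 1 := by
  have := pk_X_pow B K 0
  simpa using this

theorem digits_lt (b : ℕ) (c : ℕ → ℕ) (K : ℕ) (h : ∀ k, k < K → c k < b) :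
    ∑ k ∈ range K, c k * b ^ k < b ^ K := by
  induction K with
  | zero => simp
  | succ K ih =>
    rw [sum_range_succ]
    have h1 := ih fun k hk => h k (by omega)
    have h2 := h K (by omega)
    calc ∑ k ∈ range K, c k * b ^ k + c K * b ^ K < b ^ K + c K * b ^ K := by omega
      _ = (c K + 1) * b ^ K := by ring
      _ ≤ b * b ^ K := Nat.mul_le_mul_right _ h2
      _ = b ^ (K + 1) := by ring

theorem digits_read (b : ℕ) (c : ℕ → ℕ) (K k : ℕ) (h : ∀ k, k < K → c k < b) (hk : k < K) :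
    (∑ j ∈ range K, c j * b ^ j) / b ^ k % b = c k := by
  have hb : 0 < b := lt_of_le_of_lt (Nat.zero_le _) (h k hk)
  obtain ⟨m, rfl⟩ : ∃ m, K = k + (1 + m) := ⟨K - k - 1, by omega⟩
  have h1 : ∑ j ∈ range (k + (1 + m)), c j * b ^ j =
      ∑ j ∈ range k, c j * b ^ j +
        b ^ k * (c k + b * ∑ j ∈ range m, c (k + (1 + j)) * b ^ j) := by
    rw [Finset.sum_range_add, Finset.sum_range_add]
    simp only [Finset.sum_range_one, Nat.add_zero]
    rw [Nat.mul_add, ← Nat.mul_assoc, Finset.mul_sum]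
    congr 1
    congr 1
    · ring
    · refine Finset.sum_congr rfl fun j _ => ?_
      ring
  rw [h1, Nat.add_mul_div_left _ _ (Nat.pow_pos hb),
    Nat.div_eq_of_lt (digits_lt b c k fun j hj => h j (by omega)), Nat.zero_add,
    Nat.add_mul_mod_self_left]
  exact Nat.mod_eq_of_lt (h k hk)

theorem pk_read (B K : ℕ) (f : ℤ⟦X⟧) (k : ℕ)
    (h : ∀ k, k < K → 0 ≤ coeff k f ∧ coeff k f < 2 ^ B) (hk : k < K) :
    coeff k f = (((pk B K f).val / 2 ^ (B * k) % 2 ^ B : ℕ) : ℤ) := by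
  set c : ℕ → ℕ := fun k => (coeff k f).toNat with hc
  have hc1 : ∀ k, k < K → ((c k : ℕ) : ℤ) = coeff k f := fun k hk => Int.toNat_of_nonneg (h k hk).1
  have hc2 : ∀ k, k < K → c k < 2 ^ B := by
    intro k hk
    have := (h k hk).2
    rw [← hc1 k hk] at this
    exact_mod_cast this
  have h1 : pk B K f = ((∑ k ∈ range K, c k * (2 ^ B) ^ k : ℕ) : ZMod (2 ^ (B * K))) := by
    rw [pk]
    push_cast
    refine Finset.sum_congr rfl fun k hk => ?_
    rw [mem_range] at hk
    rw [← hc1 k hk]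
    push_cast
    rfl
  have h2 : (pk B K f).val = ∑ k ∈ range K, c k * (2 ^ B) ^ k := by
    rw [h1, ZMod.val_natCast]
    apply Nat.mod_eq_of_lt
    have := digits_lt (2 ^ B) c K hc2
    rwa [← pow_mul] at this
  rw [h2, pow_mul, digits_read (2 ^ B) c K k hc2 hk, hc1 k hk]

end PACK

theorem PACK_thm : PACKStmt :=
  ⟨PACK.pk_mul, PACK.pk_add, PACK.pk_neg, PACK.pk_one, PACK.pk_X_pow, PACK.pk_read⟩

end Pool.Agent.H37.UM
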