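import Pool.Agent.H37.UM.Stmts

/-!
# Project UM, module PN: the classical upper bound for the number of partitions
-/

set_option autoImplicit false

namespace Pool.Agent.H37.UM

open Finset

namespace PN

/-- the multiplicity vector of a partition -/
def mv (n : ℕ) (p : n.Partition) : Fin n → ℕ := fun i => p.parts.count (i.val + 1)

theorem parts_sum (n : ℕ) (p : n.Partition) :
    ∑ i : Fin n, (i.val + 1) * p.parts.count (i.val + 1) = n := by
  have h1 : ∑ m ∈ p.parts.toFinset, p.parts.count m * m = n := by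
    have := Finset.sum_multiset_count p.parts
    rw [p.parts_sum] at this
    simp only [smul_eq_mul] at this
    exact this.symm
  have h2 : ∑ m ∈ p.parts.toFinset, p.parts.count m * m =
      ∑ m ∈ (Finset.univ : Finset (Fin n)).image (fun i => i.val + 1), p.parts.count m * m := by
    apply Finset.sum_subset
    · intro m hm
      rw [Multiset.mem_toFinset] at hm
      have h3 := p.parts_pos hm
      have h4 : m ≤ n := p.le_of_mem_parts hm
      rw [Finset.mem_image]
      exact ⟨⟨m - 1, by omega⟩, Finset.mem_univ _, by simp; omega⟩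
    · intro m _ hm
      rw [Multiset.mem_toFinset] at hm
      rw [Multiset.count_eq_zero_of_notMem hm, zero_mul]
  rw [h2, Finset.sum_image] at h1
  · refine Eq.trans ?_ h1
    refine Finset.sum_congr rfl fun i _ => ?_
    ring
  · intro a _ b _ hab
    simp only at hab
    exact Fin.ext (by omega)

theorem mv_inj (n : ℕ) : Function.Injective (mv n) := by
  intro p q h
  apply Nat.Partition.ext
  ext m
  by_cases hm : 1 ≤ m ∧ m ≤ n
  · have := congrFun h ⟨m - 1, by omega⟩
    simp only [mv] at this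
    rwa [show m - 1 + 1 = m by omega] at this
  · have h0 : ∀ r : n.Partition, r.parts.count m = 0 := by
      intro r
      apply Multiset.count_eq_zero_of_notMem
      intro hmem
      exact hm ⟨r.parts_pos hmem, r.le_of_mem_parts hmem⟩
    rw [h0, h0]

theorem count_le (n : ℕ) (p : n.Partition) (i : Fin n) : p.parts.count (i.val + 1) ≤ n := by
  have h1 := parts_sum n p
  have h2 : (i.val + 1) * p.parts.count (i.val + 1) ≤
      ∑ i : Fin n, (i.val + 1) * p.parts.count (i.val + 1) :=
    Finset.single_le_sum (f := fun i : Fin n => (i.val + 1) * p.parts.count (i.val + 1))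
      (fun _ _ => Nat.zero_le _) (Finset.mem_univ i)
  rw [h1] at h2
  calc p.parts.count (i.val + 1) = 1 * p.parts.count (i.val + 1) := (Nat.one_mul _).symm
    _ ≤ (i.val + 1) * p.parts.count (i.val + 1) := Nat.mul_le_mul_right _ (by omega)
    _ ≤ n := h2

/-- `p (n) x ^ n ≤ ∏ 1 / (1 - x ^ i)` -/
theorem pn_le (n : ℕ) (x : ℝ) (hx : 0 < x) (hx1 : x < 1) :
    (Fintype.card n.Partition : ℝ) * x ^ n ≤ ∏ i : Fin n, (1 - x ^ (i.val + 1))⁻¹ := by
  have h1 : (Fintype.card n.Partition : ℝ) * x ^ n =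
      ∑ p : n.Partition, ∏ i : Fin n, (x ^ (i.val + 1)) ^ (mv n p i) := by
    have : ∀ p : n.Partition, ∏ i : Fin n, (x ^ (i.val + 1)) ^ (mv n p i) = x ^ n := by
      intro p
      conv_rhs => rw [← parts_sum n p]
      rw [← Finset.prod_pow_eq_pow_sum]
      refine Finset.prod_congr rfl fun i _ => ?_
      rw [← pow_mul]
      rfl
    simp only [this]
    rw [Finset.sum_const, nsmul_eq_mul]
    rfl
  have h2 : ∑ p : n.Partition, ∏ i : Fin n, (x ^ (i.val + 1)) ^ (mv n p i) =
      ∑ v ∈ (Finset.univ : Finset n.Partition).image (mv n), ∏ i : Fin n, (x ^ (i.val + 1)) ^ (v i) := by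
    rw [Finset.sum_image]
    intro a _ b _ hab
    exact mv_inj n hab
  have h3 : ∑ v ∈ (Finset.univ : Finset n.Partition).image (mv n),
      ∏ i : Fin n, (x ^ (i.val + 1)) ^ (v i) ≤
      ∑ v ∈ Fintype.piFinset (fun _ : Fin n => range (n + 1)), ∏ i : Fin n, (x ^ (i.val + 1)) ^ (v i) := by
    refine Finset.sum_le_sum_of_subset_of_nonneg ?_ ?_
    · intro v hv
      rw [Finset.mem_image] at hv
      obtain ⟨p, _, rfl⟩ := hv
      rw [Fintype.mem_piFinset]
      intro i
      rw [mem_range]
      have := count_le n p i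
      simp only [mv]
      omega
    · intro v _ _
      exact Finset.prod_nonneg fun i _ => by positivity
  rw [h1, h2]
  refine h3.trans ?_
  rw [← Finset.prod_univ_sum (fun _ : Fin n => range (n + 1))
    (fun (i : Fin n) (j : ℕ) => (x ^ (i.val + 1)) ^ j)]
  refine Finset.prod_le_prod (fun i _ => Finset.sum_nonneg fun j _ => by positivity) fun i _ => ?_
  have hxi : x ^ (i.val + 1) < 1 := pow_lt_one₀ hx.le hx1 (by omega)
  rw [← tsum_geometric_of_lt_one (by positivity) hxi]
  exact (summable_geometric_of_lt_one (by positivity) hxi).sum_le_tsum _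
    (fun j _ => by positivity)

theorem geom_le (x : ℝ) (hx : 0 < x) (hx1 : x < 1) (n k : ℕ) (hk : 1 ≤ k) :
    ∑ i ∈ range n, (x ^ (i + 1)) ^ k ≤ (x ^ k)/(1 - x ^ k) := by
  have hxk : x ^ k < 1 := pow_lt_one₀ hx.le hx1 (by omega)
  have h1 : ∑ i ∈ range n, (x ^ (i + 1)) ^ k = x ^ k * ∑ i ∈ range n, (x ^ k) ^ i := by
    rw [Finset.mul_sum]
    refine Finset.sum_congr rfl fun i _ => ?_
    rw [← pow_mul, ← pow_mul, ← pow_add]
    congr 1
    ring
  rw [h1, div_eq_mul_inv]
  refine mul_le_mul_of_nonneg_left ?_ (by positivity)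
  rw [← tsum_geometric_of_lt_one (by positivity) hxk]
  exact (summable_geometric_of_lt_one (by positivity) hxk).sum_le_tsum _
    (fun j _ => by positivity)

theorem log_le (n : ℕ) (s : ℝ) (hs : 0 < s) :
    ∑ i ∈ range n, (-Real.log (1 - Real.exp (-s) ^ (i + 1))) ≤ Real.pi ^ 2 / (6 * s) := by
  set x : ℝ := Real.exp (-s) with hx
  have hx0 : 0 < x := Real.exp_pos _
  have hx1 : x < 1 := by rw [hx, Real.exp_lt_one_iff]; linarith
  have h1 : ∀ i ∈ range n, HasSum (fun k : ℕ => (x ^ (i + 1)) ^ (k + 1) / ((k : ℝ) + 1))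
      (-Real.log (1 - x ^ (i + 1))) := by
    intro i _
    apply Real.hasSum_pow_div_log_of_abs_lt_one
    rw [abs_of_pos (by positivity)]
    exact pow_lt_one₀ hx0.le hx1 (by omega)
  have h2 := hasSum_sum h1
  have h3 : HasSum (fun k : ℕ => (1 / s) * (1 / ((k : ℝ) + 1) ^ 2)) ((1 / s) * (Real.pi ^ 2 / 6)) := by
    apply HasSum.mul_left
    have h4 := hasSum_zeta_two
    have h5 := (hasSum_nat_add_iff' (f := fun n : ℕ => 1 / (n : ℝ) ^ 2) 1).mpr h4
    simp only [Finset.sum_range_one, Nat.cast_zero] at h5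
    have h6 : Real.pi ^ 2 / 6 - 1 / (0 : ℝ) ^ 2 = Real.pi ^ 2 / 6 := by norm_num
    rw [h6] at h5
    refine h5.congr_fun ?_ |> fun h => h
    intro k
    push_cast
    rfl
  have h7 := hasSum_le ?_ h2 h3
  · refine h7.trans (le_of_eq ?_)
    field_simp
  · intro k
    rw [← Finset.sum_div]
    have h8 := geom_le x hx0 hx1 n (k + 1) (by omega)
    have hk : (0 : ℝ) < (k : ℝ) + 1 := by positivity
    have hxk : x ^ (k + 1) < 1 := pow_lt_one₀ hx0.le hx1 (by omega)
    have h9 : x ^ (k + 1) / (1 - x ^ (k + 1)) ≤ 1 / (s * ((k : ℝ) + 1)) := by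
      rw [div_le_div_iff₀ (by linarith) (by positivity)]
      have h10 : x ^ (k + 1) = Real.exp (-(s * ((k : ℝ) + 1))) := by
        rw [hx, ← Real.exp_nat_mul]
        congr 1
        push_cast
        ring
      have h11 : 1 + s * ((k : ℝ) + 1) ≤ Real.exp (s * ((k : ℝ) + 1)) := by
        have := Real.add_one_le_exp (s * ((k : ℝ) + 1))
        linarith
      have h12 : x ^ (k + 1) * Real.exp (s * ((k : ℝ) + 1)) = 1 := by
        rw [h10, ← Real.exp_add]
        simp
      have h13 : 0 < x ^ (k + 1) := by positivity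
      nlinarith [mul_le_mul_of_nonneg_left h11 h13.le]
    calc (∑ i ∈ range n, (x ^ (i + 1)) ^ (k + 1)) / ((k : ℝ) + 1)
        ≤ (1 / (s * ((k : ℝ) + 1))) / ((k : ℝ) + 1) := by
          gcongr
          exact h8.trans h9
      _ = 1 / s * (1 / ((k : ℝ) + 1) ^ 2) := by
          field_simp

theorem pn_exp (n : ℕ) (s : ℝ) (hs : 0 < s) :
    (Fintype.card n.Partition : ℝ) ≤ Real.exp (s * n + Real.pi ^ 2 / (6 * s)) := by
  set x : ℝ := Real.exp (-s) with hx
  have hx0 : 0 < x := Real.exp_pos _
  have hx1 : x < 1 := by rw [hx, Real.exp_lt_one_iff]; linarith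
  have h1 := pn_le n x hx0 hx1
  have h2 : ∏ i : Fin n, (1 - x ^ (i.val + 1))⁻¹ =
      Real.exp (∑ i ∈ range n, (-Real.log (1 - Real.exp (-s) ^ (i + 1)))) := by
    rw [Real.exp_sum, Finset.prod_range]
    refine Finset.prod_congr rfl fun i _ => ?_
    have : 0 < 1 - x ^ (i.val + 1) := by
      have := pow_lt_one₀ hx0.le hx1 (show i.val + 1 ≠ 0 by omega)
      linarith
    rw [Real.exp_neg, Real.exp_log this]
  have h3 : x ^ n * Real.exp (s * n) = 1 := by
    rw [hx, ← Real.exp_nat_mul, ← Real.exp_add]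
    rw [show (n : ℝ) * -s + s * n = 0 by ring, Real.exp_zero]
  rw [h2] at h1
  have h4 := Real.exp_le_exp.mpr (log_le n s hs)
  rw [Real.exp_add]
  calc (Fintype.card n.Partition : ℝ) = Real.exp (s * n) * ((Fintype.card n.Partition : ℝ) * x ^ n) := by
        linear_combination -(Fintype.card n.Partition : ℝ) * h3
    _ ≤ Real.exp (s * n) * Real.exp (Real.pi ^ 2 / (6 * s)) := by
        refine mul_le_mul_of_nonneg_left (h1.trans h4) (Real.exp_pos _).le

end PN

theorem PN_thm : PNStmt := by
  intro n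
  rcases Nat.eq_zero_or_pos n with hn | hn
  · subst hn
    have h1 : Fintype.card (Nat.Partition 0) = 1 := by decide
    rw [h1]
    simp
  · have hn' : (0 : ℝ) < n := by exact_mod_cast hn
    set t : ℝ := √(n : ℝ) with ht
    have ht0 : 0 < t := Real.sqrt_pos.mpr hn'
    have ht2 : t ^ 2 = n := Real.sq_sqrt hn'.le
    -- s = 1.28255 / t
    have h1 := PN.pn_exp n (1.28255 / t) (by positivity)
    refine h1.trans ?_
    rw [Real.exp_le_exp]
    have h2 : 1.28255 / t * (n : ℝ) = 1.28255 * t := by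
      rw [← ht2]
      field_simp
    have h3 : Real.pi ^ 2 / (6 * (1.28255 / t)) = Real.pi ^ 2 / 7.6953 * t := by
      field_simp
      ring
    rw [h2, h3]
    have hpi : Real.pi < 3.141593 := Real.pi_lt_d6
    have hpi0 := Real.pi_pos
    have h4 : Real.pi ^ 2 / 7.6953 ≤ 1.28255 := by
      rw [div_le_iff₀ (by norm_num)]
      nlinarith
    nlinarith

end Pool.Agent.H37.UM
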