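import Pool.Agent.H37.UM.Stmts

/-!
# Project UM, module STEP
-/

set_option autoImplicit false

namespace Pool.Agent.H37.UM

open PowerSeries Finset

namespace STEP

/-- coefficients indexed by integers -/
noncomputable def cz (f : ℤ⟦X⟧) (j : ℤ) : ℤ := if 0 ≤ j then coeff j.toNat f else 0

theorem cz_neg (f : ℤ⟦X⟧) {j : ℤ} (h : j < 0) : cz f j = 0 := by
  rw [cz, if_neg (by omega)]

theorem cz_nat (f : ℤ⟦X⟧) (j : ℕ) : cz f (j : ℤ) = coeff j f := by
  rw [cz, if_pos (by omega), Int.toNat_natCast]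

theorem cz_sym {D : ℕ} {f : ℤ⟦X⟧} (h : Sym D f) (j : ℤ) : cz f (D - j) = cz f j := by
  rcases lt_or_ge j 0 with h0 | h0
  · rw [cz_neg f h0]
    obtain ⟨m, hm⟩ : ∃ m : ℕ, (D : ℤ) - j = m := ⟨((D : ℤ) - j).toNat, by omega⟩
    rw [hm, cz_nat]
    exact h.top m (by omega)
  · obtain ⟨i, rfl⟩ : ∃ i : ℕ, j = i := ⟨j.toNat, by omega⟩
    rcases le_or_gt i D with h1 | h1
    · have : (D : ℤ) - i = ((D - i : ℕ) : ℤ) := by omega
      rw [this, cz_nat, cz_nat]
      exact h.sym i h1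
    · rw [cz_neg f (by omega), cz_nat]
      exact (h.top i h1).symm

theorem df_zero (f : ℤ⟦X⟧) : df f 0 = coeff 0 f := by
  rw [df, sub_mul, one_mul, map_sub, coeff_zero_X_mul, sub_zero]

theorem df_succ (f : ℤ⟦X⟧) (k : ℕ) : df f (k + 1) = coeff (k + 1) f - coeff k f := by
  rw [df, sub_mul, one_mul, map_sub, coeff_succ_X_mul]

theorem df_cz (f : ℤ⟦X⟧) (k : ℕ) : df f k = cz f k - cz f ((k : ℤ) - 1) := by
  cases k with
  | zero =>
    rw [df_zero, cz_nat, cz_neg f (by norm_num), sub_zero]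
  | succ k =>
    have : ((k + 1 : ℕ) : ℤ) - 1 = (k : ℕ) := by push_cast; ring
    rw [df_succ, this, cz_nat, cz_nat]

theorem cz_nonneg {D : ℕ} {f : ℤ⟦X⟧} (h : SU D f) (j : ℤ) : 0 ≤ cz f j := by
  have key : ∀ i : ℕ, 2 * i ≤ D → 0 ≤ coeff i f := by
    intro i
    induction i with
    | zero =>
      intro h0
      have := h.mono 0 h0
      rwa [df_zero] at this
    | succ i ih =>
      intro h0
      have h1 := h.mono (i + 1) h0
      rw [df_succ] at h1
      have h2 := ih (by omega)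
      linarith
  rcases lt_or_ge j 0 with h0 | h0
  · rw [cz_neg f h0]
  · obtain ⟨i, rfl⟩ : ∃ i : ℕ, j = i := ⟨j.toNat, by omega⟩
    rw [cz_nat]
    rcases le_or_gt (2 * i) D with h1 | h1
    · exact key i h1
    · rcases le_or_gt i D with h2 | h2
      · rw [← h.sym i h2]
        exact key (D - i) (by omega)
      · exact (h.top i h2).ge

theorem cz_step {D : ℕ} {f : ℤ⟦X⟧} (h : SU D f) (j : ℤ) (hj : 2 * j ≤ D) :
    cz f (j - 1) ≤ cz f j := by
  rcases lt_or_ge j 0 with h0 | h0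
  · rw [cz_neg f h0, cz_neg f (by omega)]
  · obtain ⟨i, rfl⟩ : ∃ i : ℕ, j = i := ⟨j.toNat, by omega⟩
    have h1 := h.mono i (by omega)
    rw [df_cz] at h1
    linarith

theorem cz_mono {D : ℕ} {f : ℤ⟦X⟧} (h : SU D f) (j : ℤ) (hj : 2 * j ≤ D) (n : ℕ) :
    cz f (j - n) ≤ cz f j := by
  induction n with
  | zero => simp
  | succ n ih =>
    refine le_trans ?_ ih
    have := cz_step h (j - n) (by omega)
    rw [show j - ((n + 1 : ℕ) : ℤ) = j - n - 1 by push_cast; ring]
    exact this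

theorem cz_le {D : ℕ} {f : ℤ⟦X⟧} (h : SU D f) (i j : ℤ) (h1 : j < i) (h2 : i + j ≤ D) :
    cz f j ≤ cz f i := by
  rcases le_or_gt (2 * i) D with h3 | h3
  · have := cz_mono h i h3 (i - j).toNat
    rwa [show i - ((i - j).toNat : ℤ) = j by omega] at this
  · rw [← cz_sym h.toSym i]
    have := cz_mono h (D - i) (by omega) ((D : ℤ) - i - j).toNat
    rwa [show (D : ℤ) - i - (((D : ℤ) - i - j).toNat : ℤ) = j by omega] at this

theorem df_mul (f v : ℤ⟦X⟧) (k : ℕ) :
    df (f * v) k = ∑ i ∈ range (k + 1), coeff i v * df f (k - i) := by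
  have h1 : (1 - X) * (f * v) = v * ((1 - X) * f) := by ring
  rw [df, h1, coeff_mul,
    Finset.Nat.sum_antidiagonal_eq_sum_range_succ (fun i j => coeff i v * coeff j ((1 - X) * f)) k]
  rfl

theorem main (c D k : ℕ) (f v : ℤ⟦X⟧) (L : ℤ → ℝ) (hf : SU (2 * c) f) (hv : SU D v)
    (hk : 2 * k ≤ 2 * c + D) (hL : ∀ j : ℕ, j ≤ c → L j ≤ ((df f j : ℤ) : ℝ))
    (hneg : ∀ j : ℤ, j < 0 → L j ≤ 0) (hanti : ∀ j : ℤ, L j + L (2 * c + 1 - j) ≤ 0) :
    ∑ i ∈ range (D + 1), ((coeff i v : ℤ) : ℝ) * L ((k : ℤ) - i) ≤ ((df (f * v) k : ℤ) : ℝ) := by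
  set d : ℤ → ℝ := fun j => ((cz f j - cz f (j - 1) : ℤ) : ℝ) with hd
  set U : ℤ → ℝ := fun j => ((cz v j : ℤ) : ℝ) with hU
  have hdanti : ∀ j, d j + d (2 * c + 1 - j) = 0 := by
    intro j
    have h1 := cz_sym hf.toSym (j - 1)
    have h2 := cz_sym hf.toSym j
    simp only [hd]
    have e1 : (2 * (c : ℤ) + 1 - j) = ((2 * c : ℕ) : ℤ) - (j - 1) := by push_cast; ring
    have e2 : (2 * (c : ℤ) + 1 - j - 1) = ((2 * c : ℕ) : ℤ) - j := by push_cast; ring
    rw [e2, e1, h1, h2]
    push_cast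
    ring
  have hdneg : ∀ j : ℤ, j < 0 → d j = 0 := by
    intro j hj
    simp only [hd]
    rw [cz_neg f hj, cz_neg f (by omega)]
    simp
  have hU0 : ∀ j : ℤ, 0 ≤ U j := fun j => by
    have := cz_nonneg hv j
    simp only [hU]
    exact_mod_cast this
  have hUle : ∀ i j : ℤ, j < i → i + j ≤ D → U j ≤ U i := by
    intro i j h1 h2
    have := cz_le hv i j h1 h2
    simp only [hU]
    exact_mod_cast this
  have hUout : ∀ j : ℤ, j < 0 ∨ (D : ℤ) < j → U j = 0 := by
    intro j hj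
    simp only [hU]
    rcases hj with hj | hj
    · rw [cz_neg v hj]; simp
    · obtain ⟨i, rfl⟩ : ∃ i : ℕ, j = i := ⟨j.toNat, by omega⟩
      rw [cz_nat, hv.top i (by omega)]
      simp
  set E : ℤ → ℝ := fun j => d j - L j with hE
  have hE1 : ∀ j : ℤ, j ≤ c → 0 ≤ E j := by
    intro j hj
    simp only [hE]
    rcases lt_or_ge j 0 with h0 | h0
    · rw [hdneg j h0]
      linarith [hneg j h0]
    · obtain ⟨i, rfl⟩ : ∃ i : ℕ, j = i := ⟨j.toNat, by omega⟩
      have h1 := hL i (by omega)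
      rw [df_cz] at h1
      simp only [hd]
      linarith
  have hE2 : ∀ j : ℤ, 0 ≤ E j + E (2 * c + 1 - j) := by
    intro j
    simp only [hE]
    linarith [hdanti j, hanti j]
  -- the difference of both sides
  have hdf : ((df (f * v) k : ℤ) : ℝ) = ∑ i ∈ range (D + 1), U i * d ((k : ℤ) - i) := by
    have h1 : ((df (f * v) k : ℤ) : ℝ) = ∑ i ∈ range (D + 1 + (k + 1)), U i * d ((k : ℤ) - i) := by
      rw [df_mul, Int.cast_sum]
      have h2 : ∑ i ∈ range (D + 1 + (k + 1)), U i * d ((k : ℤ) - i) =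
          ∑ i ∈ range (k + 1), U i * d ((k : ℤ) - i) := by
        symm
        apply Finset.sum_subset
        · intro i hi
          rw [mem_range] at hi ⊢
          omega
        · intro i _ hi
          rw [mem_range] at hi
          rw [hdneg _ (by omega), mul_zero]
      rw [h2]
      refine Finset.sum_congr rfl fun i hi => ?_
      rw [mem_range] at hi
      simp only [hU, hd]
      rw [cz_nat, df_cz]
      have : ((k - i : ℕ) : ℤ) = (k : ℤ) - i := by omega
      rw [this]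
      push_cast
      ring
    rw [h1]
    symm
    apply Finset.sum_subset
    · intro i hi
      rw [mem_range] at hi ⊢
      omega
    · intro i _ hi
      rw [mem_range] at hi
      rw [hUout i (Or.inr (by omega)), zero_mul]
  have hcU : ∀ i : ℕ, ((coeff i v : ℤ) : ℝ) = U i := by
    intro i
    simp only [hU]
    rw [cz_nat]
  rw [hdf, ← sub_nonneg, ← Finset.sum_sub_distrib]
  have hS : ∑ i ∈ range (D + 1), (U i * d ((k : ℤ) - i) - ((coeff i v : ℤ) : ℝ) * L ((k : ℤ) - i)) =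
      ∑ i ∈ range (D + 1), U i * E ((k : ℤ) - i) := by
    refine Finset.sum_congr rfl fun i _ => ?_
    rw [hcU]
    simp only [hE]
    ring
  rw [hS]
  set a : ℤ := (k : ℤ) - c with ha
  set G : ℤ → ℝ := fun i => U i * E ((k : ℤ) - i) with hG
  have hpair : ∀ i : ℤ, a ≤ i → 0 ≤ G i + G (2 * a - 1 - i) := by
    intro i hi
    have h1 : U (2 * a - 1 - i) ≤ U i := hUle _ _ (by omega) (by omega)
    have h2 := hE1 ((k : ℤ) - i) (by omega)
    have h3 := hE2 ((k : ℤ) - i)
    have h4 : (k : ℤ) - (2 * a - 1 - i) = 2 * c + 1 - ((k : ℤ) - i) := by omega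
    have h5 := hU0 (2 * a - 1 - i)
    simp only [hG]
    rw [h4]
    nlinarith [mul_nonneg (sub_nonneg.mpr h1) h2, mul_nonneg h5 h3]
  have hpair' : ∀ i : ℤ, 0 ≤ G i + G (2 * a - 1 - i) := by
    intro i
    rcases le_or_gt a i with h | h
    · exact hpair i h
    · have := hpair (2 * a - 1 - i) (by omega)
      rw [show 2 * a - 1 - (2 * a - 1 - i) = i by ring] at this
      linarith
  set M : ℤ := D + 1 + k + c + 1 with hM
  have hsum : ∑ i ∈ range (D + 1), U i * E ((k : ℤ) - i) = ∑ i ∈ Ico (a - M) (a + M), G i := by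
    have h1 : ∑ i ∈ range (D + 1), U i * E ((k : ℤ) - i) =
        ∑ x ∈ (range (D + 1)).map Nat.castEmbedding, G x := by
      rw [Finset.sum_map]
      rfl
    rw [h1]
    apply Finset.sum_subset
    · intro x hx
      rw [Finset.mem_map] at hx
      obtain ⟨i, hi, rfl⟩ := hx
      rw [mem_range] at hi
      rw [mem_Ico]
      simp only [Nat.castEmbedding_apply]
      omega
    · intro x _ hx
      simp only [hG]
      rw [hUout x, zero_mul]
      by_contra hcon
      push Not at hcon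
      apply hx
      rw [Finset.mem_map]
      refine ⟨x.toNat, ?_, ?_⟩
      · rw [mem_range]
        omega
      · simp only [Nat.castEmbedding_apply]
        omega
  have hrefl : ∑ i ∈ Ico (a - M) (a + M), G i = ∑ i ∈ Ico (a - M) (a + M), G (2 * a - 1 - i) := by
    refine Finset.sum_nbij' (fun i => 2 * a - 1 - i) (fun i => 2 * a - 1 - i) ?_ ?_ ?_ ?_ ?_
    · intro i hi
      rw [mem_Ico] at hi ⊢
      omega
    · intro i hi
      rw [mem_Ico] at hi ⊢
      omega
    · intro i _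
      ring
    · intro i _
      ring
    · intro i _
      simp
  have htot : 0 ≤ ∑ i ∈ Ico (a - M) (a + M), (G i + G (2 * a - 1 - i)) :=
    Finset.sum_nonneg fun i _ => hpair' i
  rw [Finset.sum_add_distrib, ← hrefl] at htot
  rw [hsum]
  linarith

end STEP

theorem STEP_thm : STEPStmt := by
  intro c D k f v L hf hv hk hL hneg hanti
  exact STEP.main c D k f v L hf hv hk hL hneg hanti

end Pool.Agent.H37.UM
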